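import Pool.Agent.Lib.MP_ba1c0b_an.H1g

/-!
N3 (third stage): the numerical condition.
-/

set_option autoImplicit false

namespace Pool.Agent.Lib.QR

/-- The numerical condition of the third stage: `m1 = 7`, `k = ⌊10 q/17⌋`, `lam = 0.15`, `del = 0.57`,
`m2 = ⌊q/(2 (q-l-1))⌋ + 1`. -/
theorem good3_main (l : ℕ) (q : ℝ) (h0 : (2 * l + 1 : ℝ) / 2 + 140 ≤ q)
    (h1 : q ≤ (2 * l + 1 : ℝ) / 2 + 3 * √(2 * l + 1)) :
    ∃ j k m2 : ℕ, j + k = l ∧ 1 ≤ j ∧ 1 ≤ k ∧ 2 ≤ m2 ∧ m2 ≤ l + 2 ∧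
      GoodQ (12 * (7 : ℕ)) k 7 ((99 / 100 : ℝ) / (12 * m2)) q ∧
      (2 * m2 : ℝ) / (2 * m2 - 1) < q / (j + k + 1) := by
  obtain ⟨r, hr⟩ : ∃ r : ℝ, r = √(2 * l + 1 : ℝ) := ⟨_, rfl⟩
  have hr2 : r ^ 2 = 2 * l + 1 := by rw [hr]; exact Real.sq_sqrt (by positivity)
  rw [← hr] at h1
  have hr3 : 140 / 3 ≤ r := by linarith
  have hl : (1088 : ℝ) ≤ l := by nlinarith
  have hq : 1228 ≤ q := by linarith
  have hq2 : q ≤ 2 * l + 2 := by nlinarith
  have hd : 139 + 1 / 2 ≤ q - l - 1 := by linarith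
  -- the degree `k`
  obtain ⟨k, hk⟩ : ∃ k : ℕ, k = ⌊10 * q / 17⌋₊ := ⟨_, rfl⟩
  have hk1 : (k : ℝ) ≤ 10 * q / 17 := by rw [hk]; exact Nat.floor_le (by linarith)
  have hk2 : 10 * q / 17 < k + 1 := by rw [hk]; exact Nat.lt_floor_add_one _
  have hkl : k + 1 ≤ l := by
    have h2 : (k : ℝ) + 1 ≤ l := by nlinarith
    exact_mod_cast h2
  have hk3 : (721 : ℝ) ≤ k := by linarith
  have hk0 : (0 : ℝ) < k := by linarith
  -- the exponent `m2`
  obtain ⟨m2, hm⟩ : ∃ m : ℕ, m = ⌊q / (2 * (q - l - 1))⌋₊ + 1 := ⟨_, rfl⟩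
  have hx0 : 0 ≤ q / (2 * (q - l - 1)) := by
    apply div_nonneg <;> linarith
  have hm1 : q / (2 * (q - l - 1)) < m2 := by
    rw [hm]; push_cast; exact Nat.lt_floor_add_one _
  have hm2 : (m2 : ℝ) ≤ q / (2 * (q - l - 1)) + 1 := by
    rw [hm]; push_cast
    have := Nat.floor_le hx0
    linarith
  have hx1 : 1 ≤ q / (2 * (q - l - 1)) := by
    rw [le_div_iff₀ (by linarith)]; linarith
  have hx2 : q / (2 * (q - l - 1)) ≤ q / 279 := by
    apply div_le_div_of_nonneg_left (by linarith) (by norm_num) (by linarith)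
  have hm3 : (1 : ℝ) < m2 := by linarith
  have hm4 : 2 ≤ m2 := by
    have : 1 < m2 := by exact_mod_cast hm3
    omega
  have hm5 : m2 ≤ l + 2 := by
    have h2 : (m2 : ℝ) ≤ ((l + 2 : ℕ) : ℝ) := by push_cast; linarith
    exact_mod_cast h2
  have hjk : l - k + k = l := by omega
  refine ⟨l - k, k, m2, hjk, by omega, by
    have : (1 : ℝ) ≤ k := by linarith
    exact_mod_cast this, hm4, hm5, ?_, ?_⟩
  · -- `GoodQ`
    obtain ⟨ε, hε⟩ : ∃ ε : ℝ, ε = 1 / (k : ℝ) := ⟨_, rfl⟩
    obtain ⟨s, hs⟩ : ∃ s : ℝ, s = q / (k : ℝ) := ⟨_, rfl⟩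
    have hε0 : 0 < ε := by rw [hε]; positivity
    have hε1 : ε ≤ 1 / 721 := by
      rw [hε]; exact one_div_le_one_div_of_le (by norm_num) hk3
    have hs1 : 17 / 10 ≤ s := by
      rw [hs, le_div_iff₀ hk0]; linarith
    have hs2 : s ≤ 17024 / 10000 := by
      rw [hs, div_le_iff₀ hk0]; linarith
    have hs0 : 0 < s := by linarith
    refine ⟨15 / 100, 57 / 100, by norm_num, ?_, ?_, ?_, ?_⟩
    · rw [← hs]; push_cast; linarith
    · rw [← hε]; linarith
    · rw [← hs]; push_cast; linarith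
    · rw [← hs, ← hε]
      unfold Kst
      have hc : (1 / 2 - 1 / (2 * ((7 : ℕ) : ℝ))) = 3 / 7 := by push_cast; norm_num
      obtain ⟨a, ha⟩ : ∃ a : ℝ, a = thet (2 * ((7 : ℕ) : ℝ)) s (-(15 / 100)) := ⟨_, rfl⟩
      obtain ⟨b, hb⟩ : ∃ b : ℝ, b = thet (2 * ((7 : ℕ) : ℝ)) s (57 / 100) := ⟨_, rfl⟩
      have ha1 : a ≤ 2 / 1000 := by
        rw [ha]
        unfold thet
        rw [hc, div_le_iff₀ (by norm_num), abs_le]
        constructor
        · have : 85 / 100 / (17024 / 10000) ≤ (1 + -(15 / 100)) / s := by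
            rw [div_le_div_iff₀ (by norm_num) hs0]; linarith
          have h3 : (1 : ℝ) / 2 - 2 / 1000 * (3 / 7) ≤ 85 / 100 / (17024 / 10000) := by norm_num
          linarith
        · have : (1 + -(15 / 100)) / s ≤ 1 / 2 := by
            rw [div_le_iff₀ hs0]; linarith
          linarith
      have ha0 : 0 ≤ a := by
        rw [ha]; unfold thet; rw [hc]; positivity
      have hb1 : b ≤ 9883 / 10000 := by
        rw [hb]
        unfold thet
        rw [hc, div_le_iff₀ (by norm_num), abs_le]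
        constructor
        · have : 1 / 2 ≤ (1 + 57 / 100) / s := by
            rw [le_div_iff₀ hs0]; linarith
          linarith
        · have : (1 + 57 / 100) / s ≤ (1 + 57 / 100) / (17 / 10) := by
            apply div_le_div_of_nonneg_left (by norm_num) (by norm_num) hs1
          have h3 : (1 + 57 / 100 : ℝ) / (17 / 10) - 1 / 2 ≤ 9883 / 10000 * (3 / 7) := by norm_num
          linarith
      have hb0 : 0 ≤ b := by
        rw [hb]; unfold thet; rw [hc]; positivity
      rw [← ha, ← hb]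
      have hw : (ε + 15 / 100) / (15 / 100 + 57 / 100) = (ε + 15 / 100) / (72 / 100) := by norm_num
      rw [hw]
      obtain ⟨w, hw2⟩ : ∃ w : ℝ, w = (ε + 15 / 100) / (72 / 100) := ⟨_, rfl⟩
      rw [← hw2]
      have hw0 : 0 ≤ w := by rw [hw2]; positivity
      have hw1 : w ≤ 2103 / 10000 := by
        rw [hw2, div_le_iff₀ (by norm_num)]; linarith
      have hexp : a + (b - a) * w ≤ (21 : ℕ) / (100 : ℕ) := by
        push_cast
        have h3 : b * w ≤ 9883 / 10000 * (2103 / 10000) := mul_le_mul hb1 hw1 hw0 (by norm_num)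
        have h4 : 0 ≤ a * w := mul_nonneg ha0 hw0
        nlinarith
      have hpow : (12 * ((7 : ℕ) : ℝ)) ^ (a + (b - a) * w) ≤ 254 / 100 := by
        calc (12 * ((7 : ℕ) : ℝ)) ^ (a + (b - a) * w)
            ≤ (12 * ((7 : ℕ) : ℝ)) ^ (((21 : ℕ) : ℝ) / (100 : ℕ)) := by
              apply Real.rpow_le_rpow_of_exponent_le (by push_cast; norm_num) hexp
          _ ≤ 254 / 100 := by
              have h3 : (12 * ((7 : ℕ) : ℝ)) ^ (((21 : ℕ) : ℝ) / (100 : ℕ))
                  = ((12 * ((7 : ℕ) : ℝ)) ^ 21) ^ ((1 : ℝ) / (100 : ℕ)) := by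
                rw [← Real.rpow_natCast _ 21, ← Real.rpow_mul (by positivity)]
                congr 1
                ring
              rw [h3]
              calc ((12 * ((7 : ℕ) : ℝ)) ^ 21) ^ ((1 : ℝ) / (100 : ℕ))
                  ≤ ((254 / 100 : ℝ) ^ 100) ^ ((1 : ℝ) / (100 : ℕ)) := by
                    apply Real.rpow_le_rpow (by positivity) _ (by positivity)
                    push_cast
                    norm_num
                _ = 254 / 100 := by
                    rw [← Real.rpow_natCast _ 100, ← Real.rpow_mul (by norm_num)]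
                    norm_num
      have hfac : ε * (15 / 100 + 57 / 100)
          / (2 * (57 / 100) * (15 / 100) - ε * (15 / 100 - 57 / 100)) ≤ 72 / 100 / (171 / 1000) * ε := by
        rw [div_mul_eq_mul_div, div_le_div_iff₀ (by linarith) (by norm_num)]
        nlinarith
      have hfac0 : 0 ≤ ε * (15 / 100 + 57 / 100)
          / (2 * (57 / 100) * (15 / 100) - ε * (15 / 100 - 57 / 100)) := by
        apply div_nonneg (by positivity) (by linarith)
      have hK : (12 * ((7 : ℕ) : ℝ)) ^ (a + (b - a) * w) * (ε * (15 / 100 + 57 / 100)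
          / (2 * (57 / 100) * (15 / 100) - ε * (15 / 100 - 57 / 100)))
          ≤ 254 / 100 * (72 / 100 / (171 / 1000) * ε) :=
        mul_le_mul hpow hfac hfac0 (by norm_num)
      refine hK.trans ?_
      rw [hε, le_div_iff₀ (by linarith)]
      have h5 : 254 / 100 * (72 / 100 / (171 / 1000) * (1 / (k : ℝ))) * (12 * m2)
          = (254 / 100 * (72 / 100 / (171 / 1000)) * 12 * m2) / k := by ring
      rw [h5, div_le_iff₀ hk0]
      linarith
  · have hcast : ((l - k : ℕ) : ℝ) + k + 1 = l + 1 := by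
      have : ((l - k + k : ℕ) : ℝ) = l := by rw [hjk]
      push_cast at this
      linarith
    rw [hcast]
    rw [div_lt_div_iff₀ (by linarith) (by linarith)]
    rw [div_lt_iff₀ (by linarith)] at hm1
    linarith

end Pool.Agent.Lib.QR
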