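import Pool.Agent.Lib.MP_ba1c0b_an.A5

/-!
S1 (third stage): splitting `df_1 ∧ ... ∧ df_l` into a product, and the pointwise inequalities.
-/

set_option autoImplicit false

open MeasureTheory
open scoped ENNReal NNReal

namespace Pool.Agent.Lib.QR

variable {n : ℕ}

/-- The list of the first `j` rows. -/
noncomputable def bl (j : ℕ) (A : E n →L[ℝ] E n) : List (Fin n → ℝ) :=
  (List.ofFn (row A)).take j

/-- The form `df_{j+1} ∧ ... ∧ df_{j+k}`. -/
noncomputable def fW (j k : ℕ) (A : E n →L[ℝ] E n) : V n :=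
  crl (((List.ofFn (row A)).drop j).take k) vac

private lemma s1_row_cont (i : Fin n) : Continuous fun A : E n →L[ℝ] E n => row A i := by
  apply continuous_pi
  intro j
  change Continuous fun A : E n →L[ℝ] E n => A (EuclideanSpace.single j 1) i
  fun_prop

private lemma s1_cr_cont : Continuous fun p : (Fin n → ℝ) × V n => cr p.1 p.2 := by
  change Continuous fun p : (Fin n → ℝ) × V n => WithLp.toLp 2 (fun S : Finset (Fin n) =>
    ∑ j ∈ S, (p.1 j : ℂ) * (sg j S : ℂ) * p.2 (S.erase j))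
  apply (PiLp.continuous_toLp 2 _).comp
  apply continuous_pi
  intro S
  apply continuous_finsetSum
  intro j _
  fun_prop

private lemma s1_crl_cont (I : List (Fin n)) :
    Continuous fun p : (E n →L[ℝ] E n) × V n => crl (I.map (row p.1)) p.2 := by
  induction I with
  | nil => exact continuous_snd
  | cons i I ih =>
    change Continuous fun p : (E n →L[ℝ] E n) × V n => cr (row p.1 i) (crl (I.map (row p.1)) p.2)
    exact Continuous.comp (g := fun p : (Fin n → ℝ) × V n => cr p.1 p.2)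
      (f := fun p : (E n →L[ℝ] E n) × V n => (row p.1 i, crl (I.map (row p.1)) p.2)) s1_cr_cont
      (((s1_row_cont i).comp continuous_fst).prodMk ih)

private lemma s1_bl (j : ℕ) (A : E n →L[ℝ] E n) :
    bl j A = ((List.finRange n).take j).map (row A) := by
  unfold bl
  rw [List.ofFn_eq_map, List.map_take]

private lemma s1_fW (j k : ℕ) (A : E n →L[ℝ] E n) :
    fW j k A = crl ((((List.finRange n).drop j).take k).map (row A)) vac := by
  unfold fW
  rw [List.ofFn_eq_map, List.map_take, List.map_drop]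

private lemma s1_crl_append (L K : List (Fin n → ℝ)) (x : V n) :
    crl (L ++ K) x = crl L (crl K x) := by
  unfold crl
  rw [List.foldr_append]

private lemma s1_crl_add (L : List (Fin n → ℝ)) (x y : V n) :
    crl L (x + y) = crl L x + crl L y := by
  induction L with
  | nil => rfl
  | cons v L ih =>
    change cr v (crl L (x + y)) = cr v (crl L x) + cr v (crl L y)
    rw [ih, map_add]

private lemma s1_crl_smul (L : List (Fin n → ℝ)) (c : ℂ) (x : V n) :
    crl L (c • x) = c • crl L x := by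
  induction L with
  | nil => rfl
  | cons v L ih =>
    change cr v (crl L (c • x)) = c • cr v (crl L x)
    rw [ih, map_smul]

private lemma s1_crl_deg (L : List (Fin n → ℝ)) (k : ℕ) (x : V n) (hx : IsDeg k x) :
    IsDeg (k + L.length) (crl L x) := by
  induction L with
  | nil => exact hx
  | cons v L ih => exact isDeg_cr ih v

private lemma s1_nsq_nonneg (v : Fin n → ℝ) : 0 ≤ nsq v :=
  Finset.sum_nonneg fun _ _ => by positivity

private lemma s1_nsq_row (A : E n →L[ℝ] E n) (i : Fin n) : nsq (row A i) ≤ ‖A‖ ^ 2 := by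
  have h0 := s1_nsq_nonneg (row A i)
  set v : E n := WithLp.toLp 2 (row A i) with hv
  have hvn : ‖v‖ ^ 2 = nsq (row A i) := by
    rw [EuclideanSpace.norm_sq_eq]
    unfold nsq
    apply Finset.sum_congr rfl
    intro j _
    rw [hv, Real.norm_eq_abs, sq_abs]
  have hve : v = ∑ j, row A i j • EuclideanSpace.single j (1 : ℝ) := by
    ext k
    rw [hv]
    simp [Finset.sum_apply, Pi.single_apply]
  have h1 : (A v) i = nsq (row A i) := by
    rw [hve, map_sum]
    unfold nsq
    have h2 : ∀ j : Fin n, (A (row A i j • EuclideanSpace.single j (1 : ℝ))) i = row A i j ^ 2 := by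
      intro j
      rw [map_smul, PiLp.smul_apply, smul_eq_mul, sq]
      rfl
    calc (∑ j, A (row A i j • EuclideanSpace.single j (1 : ℝ))) i
        = ∑ j, (A (row A i j • EuclideanSpace.single j (1 : ℝ))) i := by
          simp
      _ = ∑ j, row A i j ^ 2 := Finset.sum_congr rfl fun j _ => h2 j
  have h2 : nsq (row A i) ≤ ‖A‖ * ‖v‖ := by
    rw [← h1]
    calc (A v) i ≤ |(A v) i| := le_abs_self _
      _ = ‖(A v) i‖ := (Real.norm_eq_abs _).symm
      _ ≤ ‖A v‖ := PiLp.norm_apply_le (A v) i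
      _ ≤ ‖A‖ * ‖v‖ := A.le_opNorm v
  have h3 : ‖v‖ ^ 2 ≤ ‖A‖ * ‖v‖ := by rw [hvn]; exact h2
  have h4 : ‖v‖ ≤ ‖A‖ := by
    rcases (norm_nonneg v).eq_or_lt with h | h
    · rw [← h]; exact norm_nonneg _
    · nlinarith
  rw [← hvn]
  exact pow_le_pow_left₀ (norm_nonneg _) h4 2

private lemma s1_norm_cr (A : E n →L[ℝ] E n) (i : Fin n) (x : V n) :
    ‖cr (row A i) x‖ ≤ ‖A‖ * ‖x‖ := by
  have h1 := norm_cr_an (row A i) x
  have h2 : 0 ≤ ‖an (row A i) x‖ ^ 2 := by positivity
  have h3 := s1_nsq_row A i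
  have h4 : ‖cr (row A i) x‖ ^ 2 ≤ (‖A‖ * ‖x‖) ^ 2 := by
    calc ‖cr (row A i) x‖ ^ 2 ≤ nsq (row A i) * ‖x‖ ^ 2 := by linarith
      _ ≤ ‖A‖ ^ 2 * ‖x‖ ^ 2 := mul_le_mul_of_nonneg_right h3 (by positivity)
      _ = (‖A‖ * ‖x‖) ^ 2 := by ring
  exact (pow_le_pow_iff_left₀ (norm_nonneg _) (by positivity) two_ne_zero).mp h4

private lemma s1_norm_crl (A : E n →L[ℝ] E n) (I : List (Fin n)) (x : V n) :
    ‖crl (I.map (row A)) x‖ ≤ ‖A‖ ^ I.length * ‖x‖ := by
  induction I with
  | nil =>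
    change ‖x‖ ≤ ‖A‖ ^ 0 * ‖x‖
    rw [pow_zero, one_mul]
  | cons i I ih =>
    change ‖cr (row A i) (crl (I.map (row A)) x)‖ ≤ ‖A‖ ^ (I.length + 1) * ‖x‖
    calc ‖cr (row A i) (crl (I.map (row A)) x)‖ ≤ ‖A‖ * ‖crl (I.map (row A)) x‖ :=
          s1_norm_cr A i _
      _ ≤ ‖A‖ * (‖A‖ ^ I.length * ‖x‖) := mul_le_mul_of_nonneg_left ih (norm_nonneg _)
      _ = ‖A‖ ^ (I.length + 1) * ‖x‖ := by ring

/-- PROOF: `List.take_add`, `List.foldr_append`. -/
theorem fU_eq_crl_fW (j k : ℕ) (A : E n →L[ℝ] E n) :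
    fU (j + k) A = crl (bl j A) (fW j k A) := by
  unfold fU bl fW
  rw [List.take_add, s1_crl_append]

/-- PROOF: induction over the list of rows, as `a5_crl_cont` in A5. -/
theorem continuous_crl_bl (j : ℕ) :
    Continuous (fun p : (E n →L[ℝ] E n) × V n => crl (bl j p.1) p.2) := by
  simp only [s1_bl]
  exact s1_crl_cont _

theorem continuous_fW (j k : ℕ) : Continuous (fun A : E n →L[ℝ] E n => fW j k A) := by
  simp only [s1_fW]
  exact Continuous.comp (g := fun p : (E n →L[ℝ] E n) × V n =>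
    crl ((((List.finRange n).drop j).take k).map (row p.1)) p.2)
    (f := fun A : E n →L[ℝ] E n => (A, (vac : V n))) (s1_crl_cont _)
    (continuous_id.prodMk continuous_const)

theorem isDeg_fW (j k : ℕ) (h : j + k ≤ n) (A : E n →L[ℝ] E n) : IsDeg k (fW j k A) := by
  have h1 := s1_crl_deg (((List.ofFn (row A)).drop j).take k) 0 (vac : V n) isDeg_vac
  have h2 : 0 + (((List.ofFn (row A)).drop j).take k).length = k := by
    simp
    omega
  rw [h2] at h1
  exact h1

/-- PROOF: `‖cr v x‖ ≤ |v| ‖x‖` (`norm_cr_an`), a row of `A` has length at most `‖A‖`. -/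
theorem norm_crl_bl_le (j : ℕ) (hj : j ≤ n) (A : E n →L[ℝ] E n) (x : V n) :
    ‖crl (bl j A) x‖ ≤ ‖A‖ ^ j * ‖x‖ := by
  have h1 := s1_norm_crl A ((List.finRange n).take j) x
  have h2 : ((List.finRange n).take j).length = j := by
    simp [hj]
  rw [h2] at h1
  rw [s1_bl]
  exact h1

theorem norm_fW_le (j k : ℕ) (h : j + k ≤ n) (A : E n →L[ℝ] E n) : ‖fW j k A‖ ≤ ‖A‖ ^ k := by
  have h1 := s1_norm_crl A (((List.finRange n).drop j).take k) vac
  have h2 : (((List.finRange n).drop j).take k).length = k := by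
    simp
    omega
  rw [h2, norm_vac, mul_one] at h1
  rw [s1_fW]
  exact h1

theorem crl_bl_add (j : ℕ) (A : E n →L[ℝ] E n) (x y : V n) :
    crl (bl j A) (x + y) = crl (bl j A) x + crl (bl j A) y :=
  s1_crl_add _ _ _

theorem crl_bl_smul (j : ℕ) (A : E n →L[ℝ] E n) (c : ℂ) (x : V n) :
    crl (bl j A) (c • x) = c • crl (bl j A) x :=
  s1_crl_smul _ _ _

/-- The nonlinear defect. -/
noncomputable def hH (j k : ℕ) (A : E n →L[ℝ] E n) : V n :=
  crl (bl j A) (((‖fW j k A‖ ^ ((1 : ℝ) / k) : ℝ) : ℂ) • fW j k A) - fV (j + k) A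

theorem continuous_hH (j k : ℕ) : Continuous (fun A : E n →L[ℝ] E n => hH j k A) := by
  have h1 : Continuous fun A : E n →L[ℝ] E n => ((‖fW j k A‖ ^ ((1 : ℝ) / k) : ℝ) : ℂ) :=
    Complex.continuous_ofReal.comp
      ((continuous_fW j k).norm.rpow_const fun _ => Or.inr (by positivity))
  have h2 : Continuous fun A : E n →L[ℝ] E n =>
      ((‖fW j k A‖ ^ ((1 : ℝ) / k) : ℝ) : ℂ) • fW j k A := h1.smul (continuous_fW j k)
  have h3 : Continuous fun A : E n →L[ℝ] E n =>
      crl (bl j A) (((‖fW j k A‖ ^ ((1 : ℝ) / k) : ℝ) : ℂ) • fW j k A) :=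
    Continuous.comp (g := fun p : (E n →L[ℝ] E n) × V n => crl (bl j p.1) p.2)
      (f := fun A : E n →L[ℝ] E n => (A, ((‖fW j k A‖ ^ ((1 : ℝ) / k) : ℝ) : ℂ) • fW j k A))
      (continuous_crl_bl j) (continuous_id.prodMk h2)
  exact h3.sub (continuous_fV (j + k))

end Pool.Agent.Lib.QR
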