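import Pool.Agent.Lib.MP_ba1c0b_an3.S1

/-!
S1e (third stage): the pointwise inequalities.
-/

set_option autoImplicit false

open MeasureTheory
open scoped ENNReal NNReal

namespace Pool.Agent.Lib.QR

variable {n : ℕ}

private theorem s1e_crl_nil (x : V n) : crl [] x = x := rfl

private theorem s1e_crl_cons (v : Fin n → ℝ) (L : List (Fin n → ℝ)) (x : V n) :
    crl (v :: L) x = cr v (crl L x) := rfl

private theorem s1e_crl_smul (L : List (Fin n → ℝ)) (a : ℂ) (x : V n) :
    crl L (a • x) = a • crl L x := by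
  induction L with
  | nil => rfl
  | cons v L ih => rw [s1e_crl_cons, s1e_crl_cons, ih, map_smul]

private theorem s1e_an_crl (v : Fin n → ℝ) (L : List (Fin n → ℝ)) (x : V n)
    (h : ∀ w ∈ L, ∑ j, v j * w j = 0) :
    an v (crl L x) = ((-1 : ℂ) ^ L.length) • crl L (an v x) := by
  induction L with
  | nil => simp [s1e_crl_nil]
  | cons w L ih =>
    rw [s1e_crl_cons, an_cr, h w List.mem_cons_self,
      ih (fun u hu => h u (List.mem_cons_of_mem _ hu)), s1e_crl_cons, map_smul,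
      List.length_cons, pow_succ, Complex.ofReal_zero, zero_smul, zero_sub, mul_neg, mul_one,
      neg_smul]

private theorem s1e_norm (c : ℝ) (hc0 : 0 ≤ c) (P : List (Fin n → ℝ))
    (hP : P.Pairwise (fun v w => ∑ j, v j * w j = 0))
    (hc : ∀ q ∈ P, ∑ j, q j * q j = c ^ 2) :
    ‖crl P (vac : V n)‖ = c ^ P.length := by
  induction P with
  | nil =>
    rw [s1e_crl_nil, norm_vac, List.length_nil, pow_zero]
  | cons p P ih =>
    rw [List.pairwise_cons] at hP
    have h1 := norm_cr_an p (crl P (vac : V n))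
    have h2 : an p (crl P (vac : V n)) = 0 := by
      rw [s1e_an_crl p P _ hP.1, an_vac]
      have h2 : crl P (0 : V n) = 0 := by
        have := s1e_crl_smul P 0 (0 : V n)
        rw [zero_smul, zero_smul] at this
        exact this
      rw [h2, smul_zero]
    have h3 : nsq p = c ^ 2 := by
      rw [← hc p List.mem_cons_self]
      unfold nsq
      exact Finset.sum_congr rfl fun _ _ => by ring
    rw [h2, norm_zero, h3, ih hP.2 (fun u hu => hc u (List.mem_cons_of_mem _ hu))] at h1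
    rw [s1e_crl_cons, List.length_cons]
    have h4 : ‖cr p (crl P (vac : V n))‖ ^ 2 = (c ^ (P.length + 1)) ^ 2 := by
      rw [pow_succ c P.length, mul_pow]
      linarith
    exact (pow_left_inj₀ (norm_nonneg _) (pow_nonneg hc0 _) two_ne_zero).mp h4

private lemma s1e_rpow (l : ℕ) (hl : 1 ≤ l) (c x : ℝ) (hc : 0 ≤ c) (hx : 0 ≤ x) :
    (c ^ l * x) ^ ((1 : ℝ) / l) = c * x ^ ((1 : ℝ) / l) := by
  rw [Real.mul_rpow (by positivity) hx, ← Real.rpow_natCast c l, ← Real.rpow_mul hc]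
  have : (l : ℝ) ≠ 0 := by
    have : 0 < l := hl
    positivity
  rw [mul_one_div_cancel this, Real.rpow_one]

private lemma s1e_row_smul (c : ℝ) (A : E n →L[ℝ] E n) (i : Fin n) :
    row (c • A) i = c • row A i := by
  funext j
  simp [row]

private lemma s1e_crl_scale (c : ℝ) (A : E n →L[ℝ] E n) (I : List (Fin n)) (x : V n) :
    crl (I.map (row (c • A))) x = ((c : ℂ) ^ I.length) • crl (I.map (row A)) x := by
  induction I with
  | nil => simp [crl]
  | cons i I ih =>
    change cr (row (c • A) i) (crl (I.map (row (c • A))) x) =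
      ((c : ℂ) ^ (I.length + 1)) • cr (row A i) (crl (I.map (row A)) x)
    rw [ih, s1e_row_smul, cr_smul_left, map_smul, smul_smul, pow_succ, mul_comm]

private lemma s1e_bl_scale (j : ℕ) (hj : j ≤ n) (c : ℝ) (A : E n →L[ℝ] E n) (x : V n) :
    crl (bl j (c • A)) x = ((c : ℂ) ^ j) • crl (bl j A) x := by
  have h1 := s1e_crl_scale c A ((List.finRange n).take j) x
  have h2 : ((List.finRange n).take j).length = j := by
    simp [hj]
  rw [h2, List.map_take, List.map_take, ← List.ofFn_eq_map, ← List.ofFn_eq_map] at h1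
  exact h1

private lemma s1e_fW_scale (j k : ℕ) (h : j + k ≤ n) (c : ℝ) (A : E n →L[ℝ] E n) :
    fW j k (c • A) = ((c : ℂ) ^ k) • fW j k A := by
  have h1 := s1e_crl_scale c A (((List.finRange n).drop j).take k) vac
  have h2 : (((List.finRange n).drop j).take k).length = k := by
    simp
    omega
  rw [h2, List.map_take, List.map_drop, List.map_take, List.map_drop, ← List.ofFn_eq_map,
    ← List.ofFn_eq_map] at h1
  exact h1

private lemma s1e_hH_scale (j k : ℕ) (hk : 1 ≤ k) (hn : n = 2 * (j + k) + 1) (c : ℝ) (hc : 0 ≤ c)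
    (A : E n →L[ℝ] E n) : hH j k (c • A) = ((c : ℂ) ^ (j + k + 1)) • hH j k A := by
  unfold hH
  rw [s1e_fW_scale j k (by omega), s1e_bl_scale j (by omega), fV_smul (j + k) (by omega), smul_sub]
  have e1 : n - (j + k) = j + k + 1 := by omega
  rw [e1]
  congr 1
  have e2 : ‖((c : ℂ) ^ k) • fW j k A‖ = c ^ k * ‖fW j k A‖ := by
    rw [norm_smul, norm_pow, Complex.norm_real, Real.norm_of_nonneg hc]
  rw [e2, s1e_rpow k hk c _ hc (norm_nonneg _), smul_smul, s1e_crl_smul, s1e_crl_smul, smul_smul,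
    smul_smul]
  congr 1
  push_cast
  ring

private lemma s1e_norm_fW (j k : ℕ) (hn : 1 ≤ n) (h : j + k ≤ n) (A : E n →L[ℝ] E n)
    (hA : Conf A) : ‖fW j k A‖ = ‖A‖ ^ k := by
  obtain ⟨h1, -⟩ := conf_rows hn A hA
  have hpair : (List.ofFn (row A)).Pairwise (fun v w => ∑ j, v j * w j = 0) := by
    rw [List.pairwise_ofFn]
    intro i k hik
    rw [h1, if_neg hik.ne]
  have hsq : ∀ q ∈ List.ofFn (row A), ∑ j, q j * q j = ‖A‖ ^ 2 := by
    intro q hq
    rw [List.mem_ofFn] at hq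
    obtain ⟨i, rfl⟩ := hq
    rw [h1, if_pos rfl]
  have h2 := s1e_norm ‖A‖ (norm_nonneg _) (((List.ofFn (row A)).drop j).take k)
    ((hpair.sublist (List.drop_sublist _ _)).sublist (List.take_sublist _ _))
    (fun q hq => hsq q (List.mem_of_mem_drop (List.mem_of_mem_take hq)))
  have h3 : (((List.ofFn (row A)).drop j).take k).length = k := by
    simp
    omega
  rw [h3] at h2
  exact h2

private lemma s1e_hH_conf (j k : ℕ) (hk : 1 ≤ k) (hn : n = 2 * (j + k) + 1) (A : E n →L[ℝ] E n)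
    (hA : Conf A) : hH j k A = 0 := by
  obtain ⟨h1, -⟩ := conf_forms (j + k) hn A hA
  have h2 := s1e_norm_fW j k (by omega) (by omega) A hA
  unfold hH
  rw [h2, h1, fU_eq_crl_fW, crl_bl_smul, sub_eq_zero]
  congr 2
  have hk0 : (k : ℝ) ≠ 0 := by
    have : 0 < k := hk
    positivity
  rw [← Real.rpow_natCast, ← Real.rpow_mul (norm_nonneg _), mul_one_div_cancel hk0, Real.rpow_one]

private lemma s1e_hom {W : Type*} [NormedAddCommGroup W] [NormedSpace ℝ W] [FiniteDimensional ℝ W]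
    (P : Set W) (hP : IsClosed P) (hPc : ∀ A ∈ P, ∀ c : ℝ, 0 ≤ c → c • A ∈ P) (d : ℕ)
    (hd : 1 ≤ d) (Ψ : W × W → ℝ) (hc : Continuous Ψ)
    (hh : ∀ c : ℝ, 0 ≤ c → ∀ p, Ψ (c • p) = c ^ d * Ψ p)
    (hneg : ∀ A ∈ P, ‖A‖ = 1 → Ψ (A, 0) < 0) :
    ∃ C : ℝ, 0 ≤ C ∧ ∀ A ∈ P, ∀ B, Ψ (A, B) ≤ C * ‖B‖ ^ d := by
  have : ProperSpace (W × W) := FiniteDimensional.proper ℝ _
  set K : Set (W × W) := Metric.sphere 0 1 ∩ {p | p.1 ∈ P ∧ 0 ≤ Ψ p} with hK
  have hKc : IsCompact K := by
    apply (isCompact_sphere (0 : W × W) 1).inter_right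
    exact (hP.preimage continuous_fst).inter (isClosed_le continuous_const hc)
  have hne : ∀ p ∈ K, ‖p.2‖ ≠ 0 := by
    rintro ⟨A, B⟩ ⟨h1, h2, h3⟩ h4
    simp only [norm_eq_zero] at h4
    subst h4
    have h5 : ‖A‖ = 1 := by
      rw [mem_sphere_zero_iff_norm, Prod.norm_def] at h1
      simpa using h1
    exact absurd (hneg A h2 h5) (not_lt.2 h3)
  have hcont : ContinuousOn (fun p : W × W => Ψ p / ‖p.2‖ ^ d) K := by
    apply ContinuousOn.div hc.continuousOn
    · fun_prop
    · intro p hp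
      exact pow_ne_zero _ (hne p hp)
  obtain ⟨C, hC⟩ := hKc.exists_bound_of_continuousOn hcont
  refine ⟨max C 0, le_max_right _ _, fun A hA B => ?_⟩
  by_cases hp : ((A, B) : W × W) = 0
  · have h1 := hh 0 le_rfl 0
    rw [smul_zero, zero_pow (by omega), zero_mul] at h1
    rw [hp, h1]
    positivity
  · have hpos : 0 < ‖((A, B) : W × W)‖ := norm_pos_iff.2 hp
    set t := ‖((A, B) : W × W)‖ with ht
    set q : W × W := t⁻¹ • (A, B) with hq
    have hqn : ‖q‖ = 1 := by
      rw [hq, norm_smul, norm_inv, Real.norm_of_nonneg hpos.le, ← ht, inv_mul_cancel₀ hpos.ne']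
    have hqP : q.1 ∈ P := hPc A hA _ (by positivity)
    have hpq : ((A, B) : W × W) = t • q := by
      rw [hq, smul_smul, mul_inv_cancel₀ hpos.ne', one_smul]
    have hB : ‖B‖ = t * ‖q.2‖ := by
      have : B = t • q.2 := by
        have := congrArg Prod.snd hpq
        simpa using this
      conv_lhs => rw [this]
      rw [norm_smul, Real.norm_of_nonneg hpos.le]
    have h2 : Ψ q ≤ max C 0 * ‖q.2‖ ^ d := by
      rcases lt_or_ge (Ψ q) 0 with h | h
      · exact h.le.trans (by positivity)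
      · have hqK : q ∈ K := ⟨by rw [mem_sphere_zero_iff_norm]; exact hqn, hqP, h⟩
        have h3 := hC q hqK
        have h4 : 0 < ‖q.2‖ ^ d := by
          have := hne q hqK
          positivity
        rw [Real.norm_eq_abs] at h3
        have h5 := (le_abs_self _).trans h3
        rw [div_le_iff₀ h4] at h5
        exact h5.trans (mul_le_mul_of_nonneg_right (le_max_left _ _) h4.le)
    rw [hpq, hh t hpos.le, hB, mul_pow]
    calc t ^ d * Ψ q ≤ t ^ d * (max C 0 * ‖q.2‖ ^ d) :=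
          mul_le_mul_of_nonneg_left h2 (by positivity)
      _ = max C 0 * (t ^ d * ‖q.2‖ ^ d) := by ring

/-- PROOF: as `est1` in A5 (homogeneity of degree `j + k + 1` and compactness, `a5_hom`).  For conformal `A`
the rows are orthogonal of length `‖A‖` (`conf_rows`), so `‖fW j k A‖ = ‖A‖ ^ k` (as `a3_norm` in A3),
`crl (bl j A) (fW j k A) = fU (j + k) A`, and `conf_forms` gives `hH j k A = 0`. -/
theorem est3 (j k : ℕ) (hk : 1 ≤ k) (hn : n = 2 * (j + k) + 1) (η : ℝ) (hη : 0 < η) :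
    ∃ C : ℝ, 0 ≤ C ∧ ∀ A B : E n →L[ℝ] E n, Conf A →
      ‖hH j k (A + B)‖ ≤ η * ‖A‖ ^ (j + k + 1) + C * ‖B‖ ^ (j + k + 1) := by
  obtain ⟨C, hC0, hC⟩ := s1e_hom {A : E n →L[ℝ] E n | Conf A} isClosed_conf
    (fun A hA c hc => Conf.smul hA hc) (j + k + 1) (by omega)
    (fun p => ‖hH j k (p.1 + p.2)‖ - η * ‖p.1‖ ^ (j + k + 1))
    (by
      have h1 : Continuous fun p : (E n →L[ℝ] E n) × (E n →L[ℝ] E n) => hH j k (p.1 + p.2) :=
        (continuous_hH j k).comp (continuous_fst.add continuous_snd)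
      exact h1.norm.sub (by fun_prop))
    (by
      intro c hc p
      have h1 : (c • p).1 + (c • p).2 = c • (p.1 + p.2) := by
        rw [Prod.smul_fst, Prod.smul_snd, smul_add]
      simp only [h1]
      rw [s1e_hH_scale j k hk hn c hc, norm_smul, norm_pow, Complex.norm_real,
        Real.norm_of_nonneg hc, Prod.smul_fst, norm_smul, Real.norm_of_nonneg hc]
      ring)
    (by
      intro A hA hA1
      simp only [add_zero]
      rw [s1e_hH_conf j k hk hn A hA, hA1, norm_zero, one_pow]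
      linarith)
  refine ⟨C, hC0, fun A B hA => ?_⟩
  have := hC A hA B
  simp only at this
  linarith

/-- PROOF: as `est2` in A5; for conformal `A`, `‖fV l A‖ = ‖A‖ ^ (l + 1)` (`conf_forms`). -/
theorem est4 (l : ℕ) (hl : 1 ≤ l) (hn : n = 2 * l + 1) (η : ℝ) (hη : 0 < η) :
    ∃ C : ℝ, 0 ≤ C ∧ ∀ A B : E n →L[ℝ] E n, Conf A →
      (1 - η) * ‖A‖ ^ (l + 1) ≤ ‖fV l (A + B)‖ + C * ‖B‖ ^ (l + 1) := by
  have hln : l ≤ n := by omega
  have hnl : n - l = l + 1 := by omega
  obtain ⟨C, hC0, hC⟩ := s1e_hom {A : E n →L[ℝ] E n | Conf A} isClosed_conf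
    (fun A hA c hc => Conf.smul hA hc) (l + 1) (by omega)
    (fun p => (1 - η) * ‖p.1‖ ^ (l + 1) - ‖fV l (p.1 + p.2)‖)
    (by
      have h1 : Continuous fun p : (E n →L[ℝ] E n) × (E n →L[ℝ] E n) => fV l (p.1 + p.2) :=
        (continuous_fV l).comp (continuous_fst.add continuous_snd)
      exact (by fun_prop : Continuous fun p : (E n →L[ℝ] E n) × (E n →L[ℝ] E n) =>
        (1 - η) * ‖p.1‖ ^ (l + 1)).sub h1.norm)
    (by
      intro c hc p
      have h1 : (c • p).1 + (c • p).2 = c • (p.1 + p.2) := by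
        rw [Prod.smul_fst, Prod.smul_snd, smul_add]
      simp only [h1]
      rw [fV_smul l hln, hnl, norm_smul, norm_pow, Complex.norm_real,
        Real.norm_of_nonneg hc, Prod.smul_fst, norm_smul, Real.norm_of_nonneg hc]
      ring)
    (by
      intro A hA hA1
      obtain ⟨h1, h2⟩ := conf_forms l hn A hA
      simp only [add_zero]
      rw [h1, norm_smul, h2, hA1]
      simp [hη])
  refine ⟨C, hC0, fun A B hA => ?_⟩
  have := hC A hA B
  simp only at this
  linarith

/-- PROOF: `‖A + B‖ ≤ ‖A‖ + ‖B‖` and `(x + y)^(l+1) ≤ (1 + η) x^(l+1) + C y^(l+1)`. -/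
theorem est5 (l : ℕ) (η : ℝ) (hη : 0 < η) :
    ∃ C : ℝ, 0 ≤ C ∧ ∀ A B : E n →L[ℝ] E n,
      ‖A + B‖ ^ (l + 1) ≤ (1 + η) * ‖A‖ ^ (l + 1) + C * ‖B‖ ^ (l + 1) := by
  obtain ⟨C, hC0, hC⟩ := s1e_hom (Set.univ : Set (E n →L[ℝ] E n)) isClosed_univ
    (fun _ _ _ _ => Set.mem_univ _) (l + 1) (by omega)
    (fun p => ‖p.1 + p.2‖ ^ (l + 1) - (1 + η) * ‖p.1‖ ^ (l + 1))
    (by fun_prop)
    (by
      intro c hc p
      have h1 : (c • p).1 + (c • p).2 = c • (p.1 + p.2) := by
        rw [Prod.smul_fst, Prod.smul_snd, smul_add]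
      simp only [h1]
      rw [norm_smul, Prod.smul_fst, norm_smul, Real.norm_of_nonneg hc]
      ring)
    (by
      intro A _ hA1
      simp only [add_zero]
      rw [hA1, one_pow]
      linarith)
  refine ⟨C, hC0, fun A B => ?_⟩
  have := hC A (Set.mem_univ _) B
  simp only at this
  linarith

end Pool.Agent.Lib.QR
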