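import Pool.Agent.Lib.MP_ba1c0b_an.F3
import Pool.Agent.Lib.MP_ba1c0b_an3.S1

/-!
S2 (third stage): closedness of `df_{j+1} ∧ ... ∧ df_{j+k}`.
-/

set_option autoImplicit false

open MeasureTheory
open scoped ENNReal NNReal

namespace Pool.Agent.Lib.QR

variable {n : ℕ}

/-- Transposition of the product with a list of covectors. -/
theorem bp_crl_reverse (L : List (Fin n → ℝ)) (x y : V n) :
    bp (crl L x) y = bp x (anl L.reverse y) := by
  induction L generalizing y with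
  | nil => rfl
  | cons v L ih =>
    have h1 : crl (v :: L) x = cr v (crl L x) := rfl
    have h2 : anl (v :: L).reverse y = anl L.reverse (an v y) := by
      unfold anl
      rw [List.reverse_cons, List.foldr_append]
      rfl
    rw [h1, h2, bp_cr, ih]

private theorem s2_bp_smul (c : ℂ) (x y : V n) : bp x (c • y) = c * bp x y := by
  unfold bp
  rw [Finset.mul_sum]
  apply Finset.sum_congr rfl
  intro i _
  rw [PiLp.smul_apply, smul_eq_mul]
  ring

private theorem s2_bp_zero_left (y : V n) : bp (0 : V n) y = 0 := by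
  unfold bp
  simp

private noncomputable def s2_L (ξ : Fin n → ℤ) : E n →L[ℝ] ℝ :=
  ∑ j, (ξ j : ℝ) • (EuclideanSpace.proj j : E n →L[ℝ] ℝ)

private theorem s2_L_apply (ξ : Fin n → ℤ) (x : E n) : s2_L ξ x = ∑ j, (ξ j : ℝ) * x j := by
  simp [s2_L]

private theorem s2_L_single (ξ : Fin n → ℤ) (j : Fin n) :
    s2_L ξ (EuclideanSpace.single j (1 : ℝ)) = (ξ j : ℝ) := by
  rw [s2_L_apply, Finset.sum_eq_single j]
  · simp
  · intro b _ hb
    simp [hb]
  · simp

private noncomputable def s2_psi (ξ : Fin n → ℤ) (a : ℂ) (w : V n) (x : E n) : V n :=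
  (a * Complex.exp (2 * Real.pi * Complex.I * ((s2_L ξ x : ℝ) : ℂ))) • w

private theorem s2_psi_smooth (ξ : Fin n → ℤ) (a : ℂ) (w : V n) :
    ContDiff ℝ ((⊤ : ℕ∞) : WithTop ℕ∞) (s2_psi ξ a w) := by
  have h1 : ContDiff ℝ ((⊤ : ℕ∞) : WithTop ℕ∞) (fun x : E n => ((s2_L ξ x : ℝ) : ℂ)) :=
    Complex.ofRealCLM.contDiff.comp (s2_L ξ).contDiff
  unfold s2_psi
  exact (contDiff_const.mul (contDiff_const.mul h1).cexp).smul contDiff_const

private theorem s2_psi_deriv (ξ : Fin n → ℤ) (a : ℂ) (w : V n) (x v : E n) :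
    fderiv ℝ (s2_psi ξ a w) x v
      = (a * Complex.exp (2 * Real.pi * Complex.I * ((s2_L ξ x : ℝ) : ℂ))
          * (2 * Real.pi * Complex.I * ((s2_L ξ v : ℝ) : ℂ))) • w := by
  have h1 : HasFDerivAt (fun x : E n => ((s2_L ξ x : ℝ) : ℂ)) (Complex.ofRealCLM.comp (s2_L ξ)) x :=
    (Complex.ofRealCLM.comp (s2_L ξ)).hasFDerivAt
  have h2 := (((h1.const_mul (2 * Real.pi * Complex.I : ℂ)).cexp).const_mul a).smul_const w
  have h3 : fderiv ℝ (s2_psi ξ a w) x = _ := h2.fderiv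
  rw [h3]
  simp only [ContinuousLinearMap.smulRight_apply, smul_apply,
    ContinuousLinearMap.comp_apply, Complex.ofRealCLM_apply, smul_eq_mul]
  congr 1
  ring

private theorem s2_an_sum (ξ : Fin n → ℤ) (c : ℂ) (w : V n) :
    ∑ j, an (Pi.single j (1 : ℝ)) ((c * (2 * Real.pi * Complex.I * ((ξ j : ℝ) : ℂ))) • w)
      = (c * (2 * Real.pi * Complex.I)) • an (fr ξ) w := by
  rw [an_eq_sum (fr ξ) w, Finset.smul_sum]
  refine Finset.sum_congr rfl fun j _ => ?_
  rw [map_smul, smul_smul]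
  congr 1
  simp only [fr]
  ring

private theorem s2_nsq_ne (ξ : Fin n → ℤ) (hξ : ξ ≠ 0) : nsq (fr ξ) ≠ 0 := by
  intro h
  apply hξ
  unfold nsq at h
  rw [Finset.sum_eq_zero_iff_of_nonneg (fun _ _ => by positivity)] at h
  funext j
  have := h j (Finset.mem_univ j)
  have h2 : fr ξ j = 0 := by
    exact pow_eq_zero_iff (two_ne_zero) |>.mp this
  unfold fr at h2
  exact_mod_cast h2

private theorem s2_cont_bp {X : Type*} [TopologicalSpace X] {f h : X → V n} (hf : Continuous f)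
    (hh : Continuous h) : Continuous fun x => bp (f x) (h x) := by
  unfold bp
  refine continuous_finsetSum _ fun i _ => ?_
  exact ((EuclideanSpace.proj i : V n →L[ℂ] ℂ).continuous.comp hf).mul
    ((EuclideanSpace.proj i : V n →L[ℂ] ℂ).continuous.comp hh)

private theorem s2_transfer (F : E n → ℂ) (hF : Continuous F) (h0 : ∀ x, x ∉ cube n → F x = 0) :
    ∫ x, F (rep n x) ∂(μT n) = ∫ x, F x := by
  rw [← integral_map (φ := rep n) measurable_rep.aemeasurable (hF.aestronglyMeasurable), map_rep]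
  exact setIntegral_eq_integral_of_forall_compl_eq_zero h0

private theorem s2_fderiv_comp (g : E n → E n)
    (hg : ContDiff ℝ ((⊤ : ℕ∞) : WithTop ℕ∞) g) (i : Fin n) (x : E n) :
    fderiv ℝ (fun y => g y i) x = (EuclideanSpace.proj i : E n →L[ℝ] ℝ).comp (fderiv ℝ g x) := by
  have h := (EuclideanSpace.proj i : E n →L[ℝ] ℝ).hasFDerivAt.comp x
    (hg.differentiable (by simp)).differentiableAt.hasFDerivAt
  exact h.fderiv

private theorem s2_row_gr (g : E n → E n)
    (hg : ContDiff ℝ ((⊤ : ℕ∞) : WithTop ℕ∞) g) (x : E n) :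
    List.ofFn (row (fderiv ℝ g x)) =
      (List.ofFn (fun (i : Fin n) (y : E n) => g y i)).map
        (fun h => fun j => fderiv ℝ h x (EuclideanSpace.single j 1)) := by
  rw [List.map_ofFn]
  congr 1
  funext i j
  simp only [row, Function.comp]
  rw [s2_fderiv_comp g hg]
  rfl

private theorem s2_comp_mem (g : E n → E n)
    (hg : ContDiff ℝ ((⊤ : ℕ∞) : WithTop ℕ∞) g) (hc : HasCompactSupport g)
    (h : E n → ℝ) (hh : h ∈ List.ofFn (fun (i : Fin n) (y : E n) => g y i)) :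
    ContDiff ℝ ((⊤ : ℕ∞) : WithTop ℕ∞) h ∧ HasCompactSupport h := by
  rw [List.mem_ofFn] at hh
  obtain ⟨i, rfl⟩ := hh
  refine ⟨(EuclideanSpace.proj i : E n →L[ℝ] ℝ).contDiff.comp hg, ?_⟩
  exact hc.comp_left (g := fun v : E n => v i) (by simp)

/-- For maps. -/
theorem closed_fW (j k : ℕ) (hk : 1 ≤ k) (h : j + k ≤ n) (g : E n → E n)
    (hg : ContDiff ℝ ((⊤ : ℕ∞) : WithTop ℕ∞) g) (hc : HasCompactSupport g) (ψ : E n → V n)
    (hψ : ContDiff ℝ ((⊤ : ℕ∞) : WithTop ℕ∞) ψ) :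
    ∫ x, bp (fW j k (fderiv ℝ g x))
      (∑ j, an (Pi.single j (1 : ℝ)) (fderiv ℝ ψ x (EuclideanSpace.single j 1))) = 0 := by
  have h := closed_list (((List.ofFn (fun (i : Fin n) (y : E n) => g y i)).drop j).take k)
    (by
      intro h0
      have := congrArg List.length h0
      simp at this
      omega)
    (fun f hf => (s2_comp_mem g hg hc f (List.mem_of_mem_drop (List.mem_of_mem_take hf))).1)
    (fun f hf => (s2_comp_mem g hg hc f (List.mem_of_mem_drop (List.mem_of_mem_take hf))).2) ψ hψ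
  unfold fW
  simp only [s2_row_gr g hg, ← List.map_drop, ← List.map_take]
  exact h

/-- `fW` vanishes at zero. -/
theorem fW_zero (j k : ℕ) (hk : 1 ≤ k) (h : j + k ≤ n) :
    fW j k (0 : E n →L[ℝ] E n) = 0 := by
  have h1 := norm_fW_le j k h (0 : E n →L[ℝ] E n)
  rw [norm_zero, zero_pow (by omega)] at h1
  exact norm_le_zero_iff.1 h1

/-- Closedness on the torus. -/
theorem torus_closed_fW (j k : ℕ) (hk : 1 ≤ k) (h : j + k ≤ n) (g : E n → E n)
    (hg : ContDiff ℝ ((⊤ : ℕ∞) : WithTop ℕ∞) g) (hc : HasCompactSupport g)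
    (hs : tsupport g ⊆ cube n) (ξ : Fin n → ℤ) (y : V n) :
    ∫ x, bp (fW j k (fderiv ℝ g (rep n x))) (UnitAddTorus.mFourier ξ x • Pj k ξ y) ∂(μT n)
      = 0 := by
  rcases eq_or_ne ξ 0 with rfl | hξ
  · have : ∀ x : UnitAddTorus (Fin n), bp (fW j k (fderiv ℝ g (rep n x)))
        (UnitAddTorus.mFourier 0 x • Pj k 0 y) = 0 := by
      intro x
      rw [Pj_zero, smul_zero, ← zero_smul ℂ (0 : V n), s2_bp_smul, zero_mul]
    simp only [this, integral_zero]
  have hN := s2_nsq_ne ξ hξ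
  have hg1 : Continuous (fderiv ℝ g) := hg.continuous_fderiv (by simp)
  have key := closed_fW j k hk h g hg hc
    (s2_psi ξ (2 * Real.pi * Complex.I * nsq (fr ξ))⁻¹ (cr (fr ξ) (dg k y)))
    (s2_psi_smooth _ _ _)
  have e1 : ∀ x : E n, ∑ j, an (Pi.single j (1 : ℝ))
      (fderiv ℝ (s2_psi ξ (2 * Real.pi * Complex.I * nsq (fr ξ))⁻¹ (cr (fr ξ) (dg k y))) x
        (EuclideanSpace.single j 1))
      = Complex.exp (2 * Real.pi * Complex.I * ((s2_L ξ x : ℝ) : ℂ)) • Pj k ξ y := by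
    intro x
    simp only [s2_psi_deriv, s2_L_single]
    rw [s2_an_sum]
    have : Pj k ξ y = (((nsq (fr ξ))⁻¹ : ℝ) : ℂ) • an (fr ξ) (cr (fr ξ) (dg k y)) := rfl
    rw [this, smul_smul]
    congr 1
    have hπ : (Real.pi : ℂ) ≠ 0 := by exact_mod_cast Real.pi_ne_zero
    have hN' : ((nsq (fr ξ) : ℝ) : ℂ) ≠ 0 := by exact_mod_cast hN
    push_cast
    field_simp
  have e2 : ∀ x : UnitAddTorus (Fin n), bp (fW j k (fderiv ℝ g (rep n x)))
      (UnitAddTorus.mFourier ξ x • Pj k ξ y)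
      = (fun z : E n => bp (fW j k (fderiv ℝ g z))
        (Complex.exp (2 * Real.pi * Complex.I * ((s2_L ξ z : ℝ) : ℂ)) • Pj k ξ y)) (rep n x) := by
    intro x
    simp only [mFourier_rep, s2_L_apply]
  refine (integral_congr_ae (Filter.Eventually.of_forall e2)).trans ?_
  refine (s2_transfer (fun z : E n => bp (fW j k (fderiv ℝ g z))
        (Complex.exp (2 * Real.pi * Complex.I * ((s2_L ξ z : ℝ) : ℂ)) • Pj k ξ y)) ?_ ?_).trans ?_
  · refine s2_cont_bp ((continuous_fW j k).comp hg1) ?_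
    have := (s2_psi_smooth ξ 1 (Pj k ξ y)).continuous
    unfold s2_psi at this
    simpa only [one_mul] using this
  · intro x hx
    have : fderiv ℝ g x = 0 := fderiv_of_notMem_tsupport ℝ fun h => hx (hs h)
    simp only [this, fW_zero j k hk h, s2_bp_zero_left]
  · rw [← key]
    simp only [e1]

end Pool.Agent.Lib.QR
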