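import Pool.Agent.Lib.MP_ba1c0b_an.F3
import Pool.Agent.Lib.MP_ba1c0b_an3.S1

/-!
S2c (third stage): coclosedness of the contraction of a coexact form with `df_1 ∧ ... ∧ df_j`.
-/

set_option autoImplicit false

open MeasureTheory
open scoped ENNReal NNReal

namespace Pool.Agent.Lib.QR

variable {n : ℕ}

private theorem s2c_int_zero (ψ : E n → V n) (hψ : ContDiff ℝ ((⊤ : ℕ∞) : WithTop ℕ∞) ψ)
    (hc : HasCompactSupport ψ) (v : E n) :
    Integrable (fun x => fderiv ℝ ψ x v) ∧ ∫ x, fderiv ℝ ψ x v = 0 := by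
  have hd : Continuous (fun x => fderiv ℝ ψ x v) :=
    (hψ.continuous_fderiv (by simp)).clm_apply continuous_const
  have hcd : HasCompactSupport (fun x => fderiv ℝ ψ x v) := by
    have := hc.fderiv (𝕜 := ℝ)
    exact this.comp_left (g := fun L : E n →L[ℝ] V n => L v) (by simp)
  have hi : Integrable (fun x => fderiv ℝ ψ x v) := hd.integrable_of_hasCompactSupport hcd
  refine ⟨hi, ?_⟩
  have h := integral_smul_fderiv_eq_neg_fderiv_smul_of_integrable (𝕜 := ℝ)
    (μ := (volume : Measure (E n)))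
    (f := fun _ : E n => (1 : ℝ)) (g := ψ) (v := v) (by simp) (by simpa using hi)
    (by simpa using hψ.continuous.integrable_of_hasCompactSupport hc)
    (fun x _ => differentiableAt_const _)
    (fun x _ => (hψ.differentiable (by simp)).differentiableAt)
  simpa using h

private noncomputable def s2c_gr (g : E n → ℝ) (x : E n) : Fin n → ℝ :=
  fun j => fderiv ℝ g x (EuclideanSpace.single j 1)

private noncomputable def s2c_DD (ψ : E n → V n) (x : E n) : V n :=
  ∑ j, an (Pi.single j (1 : ℝ)) (fderiv ℝ ψ x (EuclideanSpace.single j 1))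

private noncomputable def s2c_bk (k : Fin n) : V n →L[ℝ] V n :=
  (LinearMap.toContinuousLinearMap (an (Pi.single k (1 : ℝ)))).restrictScalars ℝ

private theorem s2c_bk_apply (k : Fin n) (x : V n) :
    s2c_bk k x = an (Pi.single k (1 : ℝ)) x := rfl

private theorem s2c_B_gr (g : E n → ℝ) (ψ : E n → V n) :
    (fun y => an (s2c_gr g y) (ψ y)) =
      fun y => ∑ k, (fderiv ℝ g y (EuclideanSpace.single k 1)) • s2c_bk k (ψ y) := by
  funext y
  rw [an_eq_sum]
  refine Finset.sum_congr rfl fun k _ => ?_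
  rw [s2c_bk_apply]
  simp only [s2c_gr]
  exact Complex.coe_smul _ _

private theorem s2c_smooth (g : E n → ℝ) (hg : ContDiff ℝ ((⊤ : ℕ∞) : WithTop ℕ∞) g)
    (ψ : E n → V n) (hψ : ContDiff ℝ ((⊤ : ℕ∞) : WithTop ℕ∞) ψ) :
    ContDiff ℝ ((⊤ : ℕ∞) : WithTop ℕ∞) (fun y => an (s2c_gr g y) (ψ y)) := by
  rw [s2c_B_gr]
  refine ContDiff.sum fun k _ => ?_
  have ha : ContDiff ℝ ((⊤ : ℕ∞) : WithTop ℕ∞)
      (fun y => fderiv ℝ g y (EuclideanSpace.single k 1)) :=
    (hg.fderiv_right (by simp)).clm_apply contDiff_const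
  exact ha.smul ((s2c_bk k).contDiff.comp hψ)

private theorem s2c_DD_key (g : E n → ℝ) (hg : ContDiff ℝ ((⊤ : ℕ∞) : WithTop ℕ∞) g)
    (ψ : E n → V n) (hψ : ContDiff ℝ ((⊤ : ℕ∞) : WithTop ℕ∞) ψ) (x : E n) :
    s2c_DD (fun y => an (s2c_gr g y) (ψ y)) x = -an (s2c_gr g x) (s2c_DD ψ x) := by
  have h1 : ∀ k : Fin n, HasFDerivAt (fun y => fderiv ℝ g y (EuclideanSpace.single k 1))
      ((ContinuousLinearMap.apply ℝ ℝ (EuclideanSpace.single k (1 : ℝ))).comp
        (fderiv ℝ (fderiv ℝ g) x)) x := by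
    intro k
    have hd : DifferentiableAt ℝ (fderiv ℝ g) x :=
      ((hg.fderiv_right (m := ((⊤ : ℕ∞) : WithTop ℕ∞)) (by simp)).differentiable
        (by simp)).differentiableAt
    exact (ContinuousLinearMap.apply ℝ ℝ
      (EuclideanSpace.single k (1 : ℝ))).hasFDerivAt.comp x hd.hasFDerivAt
  have h2 : ∀ k : Fin n, HasFDerivAt (fun y => s2c_bk k (ψ y)) ((s2c_bk k).comp (fderiv ℝ ψ x)) x := by
    intro k
    exact (s2c_bk k).hasFDerivAt.comp x (hψ.differentiable (by simp)).differentiableAt.hasFDerivAt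
  have h3 : fderiv ℝ (fun y => ∑ k, (fderiv ℝ g y (EuclideanSpace.single k 1)) • s2c_bk k (ψ y)) x
      = ∑ k, ((fderiv ℝ g x (EuclideanSpace.single k 1)) • ((s2c_bk k).comp (fderiv ℝ ψ x)) +
        ((ContinuousLinearMap.apply ℝ ℝ (EuclideanSpace.single k (1 : ℝ))).comp
        (fderiv ℝ (fderiv ℝ g) x)).smulRight (s2c_bk k (ψ x))) := by
    exact (HasFDerivAt.fun_sum fun k _ => (h1 k).smul (h2 k)).fderiv
  have hsym : ∀ j k : Fin n,
      fderiv ℝ (fderiv ℝ g) x (EuclideanSpace.single j 1) (EuclideanSpace.single k 1) =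
      fderiv ℝ (fderiv ℝ g) x (EuclideanSpace.single k 1) (EuclideanSpace.single j 1) := by
    intro j k
    have := (hg.contDiffAt (x := x)).isSymmSndFDerivAt
      (by rw [minSmoothness_of_isRCLikeNormedField]; exact WithTop.coe_le_coe.mpr le_top)
    exact this _ _
  have h0 : s2c_DD (fun y => an (s2c_gr g y) (ψ y)) x =
      ∑ j, ∑ k, ((fderiv ℝ g x (EuclideanSpace.single k 1)) •
          an (Pi.single j (1 : ℝ)) (an (Pi.single k (1 : ℝ))
            (fderiv ℝ ψ x (EuclideanSpace.single j 1))) +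
        (fderiv ℝ (fderiv ℝ g) x (EuclideanSpace.single j 1) (EuclideanSpace.single k 1)) •
          an (Pi.single j (1 : ℝ)) (an (Pi.single k (1 : ℝ)) (ψ x))) := by
    unfold s2c_DD
    rw [s2c_B_gr, h3]
    refine Finset.sum_congr rfl fun j _ => ?_
    rw [sum_apply, map_sum]
    refine Finset.sum_congr rfl fun k _ => ?_
    simp only [add_apply, smul_apply,
      ContinuousLinearMap.comp_apply, ContinuousLinearMap.smulRight_apply,
      ContinuousLinearMap.apply_apply, s2c_bk_apply, map_add, LinearMap.map_smul_of_tower]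
  rw [h0]
  simp only [Finset.sum_add_distrib]
  have hS : ∑ j, ∑ k, (fderiv ℝ (fderiv ℝ g) x (EuclideanSpace.single j 1)
      (EuclideanSpace.single k 1)) •
        an (Pi.single j (1 : ℝ)) (an (Pi.single k (1 : ℝ)) (ψ x)) = 0 := by
    set S := ∑ j, ∑ k, (fderiv ℝ (fderiv ℝ g) x (EuclideanSpace.single j 1)
      (EuclideanSpace.single k 1)) •
        an (Pi.single j (1 : ℝ)) (an (Pi.single k (1 : ℝ)) (ψ x)) with hSd
    have : S = -S := by
      conv_lhs => rw [hSd, Finset.sum_comm]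
      rw [hSd, ← Finset.sum_neg_distrib]
      refine Finset.sum_congr rfl fun j _ => ?_
      rw [← Finset.sum_neg_distrib]
      refine Finset.sum_congr rfl fun k _ => ?_
      rw [hsym k j, an_an (Pi.single k (1 : ℝ)) (Pi.single j (1 : ℝ)), smul_neg]
    have h2 : (2 : ℝ) • S = 0 := by
      rw [two_smul]
      nth_rewrite 2 [this]
      exact add_neg_cancel S
    exact (smul_eq_zero.mp h2).resolve_left two_ne_zero
  rw [hS, add_zero, an_eq_sum (s2c_gr g x) (s2c_DD ψ x), ← Finset.sum_neg_distrib, Finset.sum_comm]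
  refine Finset.sum_congr rfl fun k _ => ?_
  unfold s2c_DD
  rw [map_sum, Finset.smul_sum, ← Finset.sum_neg_distrib]
  refine Finset.sum_congr rfl fun j _ => ?_
  rw [an_an (Pi.single j (1 : ℝ)) (Pi.single k (1 : ℝ)), smul_neg]
  simp only [s2c_gr]
  rw [Complex.coe_smul]

private theorem s2c_an_zero (x : V n) : an (0 : Fin n → ℝ) x = 0 := by
  rw [an_eq_sum]; simp

private theorem s2c_cr_zero (x : V n) : cr (0 : Fin n → ℝ) x = 0 := by
  rw [cr_eq_sum]; simp

/-- the contraction with a list of gradients -/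
private noncomputable def s2c_fld (L : List (E n → ℝ)) (ψ : E n → V n) (x : E n) : V n :=
  anl (L.map fun g => s2c_gr g x) (ψ x)

private theorem s2c_fld_cons (g : E n → ℝ) (L : List (E n → ℝ)) (ψ : E n → V n) :
    s2c_fld (g :: L) ψ = fun x => an (s2c_gr g x) (s2c_fld L ψ x) := rfl

private theorem s2c_fld_smooth (L : List (E n → ℝ))
    (h1 : ∀ g ∈ L, ContDiff ℝ ((⊤ : ℕ∞) : WithTop ℕ∞) g)
    (ψ : E n → V n) (hψ : ContDiff ℝ ((⊤ : ℕ∞) : WithTop ℕ∞) ψ) :
    ContDiff ℝ ((⊤ : ℕ∞) : WithTop ℕ∞) (s2c_fld L ψ) := by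
  induction L with
  | nil => exact hψ
  | cons g L ih =>
    rw [s2c_fld_cons]
    exact s2c_smooth g (h1 g (by simp)) _ (ih fun f hf => h1 f (by simp [hf]))

private theorem s2c_fld_supp (L : List (E n → ℝ)) (hL : L ≠ [])
    (h2 : ∀ g ∈ L, HasCompactSupport g) (ψ : E n → V n) :
    HasCompactSupport (s2c_fld L ψ) := by
  cases L with
  | nil => exact absurd rfl hL
  | cons g L =>
    rw [s2c_fld_cons]
    refine ((h2 g (by simp)).fderiv (𝕜 := ℝ)).mono ?_
    intro y hy h0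
    apply hy
    have : s2c_gr g y = 0 := by
      funext j
      simp only [s2c_gr]
      rw [h0]; rfl
    simp only
    rw [this, s2c_an_zero]

private theorem s2c_fld_DD (L : List (E n → ℝ))
    (h1 : ∀ g ∈ L, ContDiff ℝ ((⊤ : ℕ∞) : WithTop ℕ∞) g)
    (ψ : E n → V n) (hψ : ContDiff ℝ ((⊤ : ℕ∞) : WithTop ℕ∞) ψ) (x : E n) :
    anl (L.map fun g => s2c_gr g x) (s2c_DD ψ x)
      = ((-1 : ℂ) ^ L.length) • s2c_DD (s2c_fld L ψ) x := by
  induction L with
  | nil =>
    rw [List.length_nil, pow_zero, one_smul]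
    rfl
  | cons g L ih =>
    have h3 := ih fun f hf => h1 f (by simp [hf])
    have h4 := s2c_DD_key g (h1 g (by simp)) (s2c_fld L ψ)
      (s2c_fld_smooth L (fun f hf => h1 f (by simp [hf])) ψ hψ) x
    rw [s2c_fld_cons, h4, List.length_cons, pow_succ]
    change an (s2c_gr g x) (anl (L.map fun g => s2c_gr g x) (s2c_DD ψ x)) = _
    rw [h3, map_smul, mul_neg_one, neg_smul, smul_neg, neg_neg]

private noncomputable def s2c_bpl (z : V n) : V n →ₗ[ℂ] ℂ where
  toFun y := bp z y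
  map_add' x y := by simp [bp, mul_add, Finset.sum_add_distrib]
  map_smul' c x := by
    simp only [bp, PiLp.smul_apply, smul_eq_mul, RingHom.id_apply, Finset.mul_sum]
    exact Finset.sum_congr rfl fun j _ => by ring

private theorem s2c_bp_comm (x y : V n) : bp x y = bp y x := by
  unfold bp
  exact Finset.sum_congr rfl fun i _ => mul_comm _ _

private theorem s2c_bp_smul (c : ℂ) (x y : V n) : bp x (c • y) = c * bp x y :=
  (s2c_bpl x).map_smul c y

private theorem s2c_bp_add (x y z : V n) : bp x (y + z) = bp x y + bp x z :=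
  (s2c_bpl x).map_add y z

private theorem s2c_bp_sub (x y z : V n) : bp x (y - z) = bp x y - bp x z :=
  (s2c_bpl x).map_sub y z

private theorem s2c_bp_zero (x : V n) : bp x 0 = 0 := (s2c_bpl x).map_zero

private theorem s2c_bp_zero_left (x : V n) : bp 0 x = 0 := by
  rw [s2c_bp_comm, s2c_bp_zero]

private theorem s2c_int_DD (z : V n) (ψ : E n → V n) (hψ : ContDiff ℝ ((⊤ : ℕ∞) : WithTop ℕ∞) ψ)
    (hc : HasCompactSupport ψ) : ∫ x, bp z (s2c_DD ψ x) = 0 := by
  have he : (fun x => bp z (s2c_DD ψ x)) = fun x => ∑ j,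
      (((LinearMap.toContinuousLinearMap (s2c_bpl z)).restrictScalars ℝ).comp (s2c_bk j))
        (fderiv ℝ ψ x (EuclideanSpace.single j 1)) := by
    funext x
    have : bp z (s2c_DD ψ x) = s2c_bpl z (s2c_DD ψ x) := rfl
    rw [this]
    unfold s2c_DD
    rw [map_sum]
    rfl
  rw [he, integral_finsetSum _ fun j _ => ContinuousLinearMap.integrable_comp _
    (s2c_int_zero ψ hψ hc _).1]
  refine Finset.sum_eq_zero fun j _ => ?_
  rw [ContinuousLinearMap.integral_comp_comm _ (s2c_int_zero ψ hψ hc _).1,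
    (s2c_int_zero ψ hψ hc _).2, map_zero]

private theorem s2c_fderiv_comp (g : E n → E n)
    (hg : ContDiff ℝ ((⊤ : ℕ∞) : WithTop ℕ∞) g) (i : Fin n) (x : E n) :
    fderiv ℝ (fun y => g y i) x = (EuclideanSpace.proj i : E n →L[ℝ] ℝ).comp (fderiv ℝ g x) := by
  have h := (EuclideanSpace.proj i : E n →L[ℝ] ℝ).hasFDerivAt.comp x
    (hg.differentiable (by simp)).differentiableAt.hasFDerivAt
  exact h.fderiv

private noncomputable def s2c_cl (g : E n → E n) (j : ℕ) : List (E n → ℝ) :=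
  ((List.ofFn (fun (i : Fin n) (y : E n) => g y i)).take j).reverse

private theorem s2c_bl (g : E n → E n)
    (hg : ContDiff ℝ ((⊤ : ℕ∞) : WithTop ℕ∞) g) (j : ℕ) (x : E n) :
    (bl j (fderiv ℝ g x)).reverse = (s2c_cl g j).map (fun h => s2c_gr h x) := by
  have h1 : List.ofFn (row (fderiv ℝ g x)) =
      (List.ofFn (fun (i : Fin n) (y : E n) => g y i)).map (fun h => s2c_gr h x) := by
    rw [List.map_ofFn]
    congr 1
    funext i j
    simp only [row, Function.comp, s2c_gr]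
    rw [s2c_fderiv_comp g hg]
    rfl
  unfold bl s2c_cl
  rw [h1, List.map_reverse, List.map_take]

private theorem s2c_cl_mem (g : E n → E n)
    (hg : ContDiff ℝ ((⊤ : ℕ∞) : WithTop ℕ∞) g) (hc : HasCompactSupport g) (j : ℕ)
    (h : E n → ℝ) (hh : h ∈ s2c_cl g j) :
    ContDiff ℝ ((⊤ : ℕ∞) : WithTop ℕ∞) h ∧ HasCompactSupport h := by
  unfold s2c_cl at hh
  have hh2 := List.mem_of_mem_take (List.mem_reverse.mp hh)
  rw [List.mem_ofFn] at hh2
  obtain ⟨i, rfl⟩ := hh2
  refine ⟨(EuclideanSpace.proj i : E n →L[ℝ] ℝ).contDiff.comp hg, ?_⟩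
  exact hc.comp_left (g := fun v : E n => v i) (by simp)

private theorem s2c_cl_length (g : E n → E n) (j : ℕ) (hj : j ≤ n) :
    (s2c_cl g j).length = j := by
  unfold s2c_cl
  simp [hj]

/-- The linear functional `ξ · x`. -/
private noncomputable def s2c_L (ξ : Fin n → ℤ) : E n →L[ℝ] ℝ :=
  ∑ j, (ξ j : ℝ) • (EuclideanSpace.proj j : E n →L[ℝ] ℝ)

private theorem s2c_L_apply (ξ : Fin n → ℤ) (x : E n) : s2c_L ξ x = ∑ j, (ξ j : ℝ) * x j := by
  simp [s2c_L]

private theorem s2c_L_single (ξ : Fin n → ℤ) (j : Fin n) :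
    s2c_L ξ (EuclideanSpace.single j (1 : ℝ)) = (ξ j : ℝ) := by
  rw [s2c_L_apply, Finset.sum_eq_single j]
  · simp
  · intro b _ hb
    simp [hb]
  · simp

/-- The exponential. -/
private noncomputable def s2c_ex (ξ : Fin n → ℤ) (x : E n) : ℂ :=
  Complex.exp (2 * Real.pi * Complex.I * ((s2c_L ξ x : ℝ) : ℂ))

private theorem s2c_ex_smooth (ξ : Fin n → ℤ) :
    ContDiff ℝ ((⊤ : ℕ∞) : WithTop ℕ∞) (s2c_ex ξ) := by
  have h1 : ContDiff ℝ ((⊤ : ℕ∞) : WithTop ℕ∞) (fun x : E n => ((s2c_L ξ x : ℝ) : ℂ)) :=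
    Complex.ofRealCLM.contDiff.comp (s2c_L ξ).contDiff
  unfold s2c_ex
  exact (contDiff_const.mul h1).cexp

/-- `DD (exp • ψ) = exp • DD ψ + (2πi exp) • an ξ ψ`. -/
private theorem s2c_DD_ex (ξ : Fin n → ℤ) (ψ : E n → V n)
    (hψ : ContDiff ℝ ((⊤ : ℕ∞) : WithTop ℕ∞) ψ) (x : E n) :
    s2c_DD (fun y => s2c_ex ξ y • ψ y) x
      = s2c_ex ξ x • s2c_DD ψ x + (s2c_ex ξ x * (2 * Real.pi * Complex.I)) • an (fr ξ) (ψ x) := by
  have h1 : HasFDerivAt (fun x : E n => ((s2c_L ξ x : ℝ) : ℂ)) (Complex.ofRealCLM.comp (s2c_L ξ)) x :=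
    (Complex.ofRealCLM.comp (s2c_L ξ)).hasFDerivAt
  have h2 := (h1.const_mul (2 * Real.pi * Complex.I : ℂ)).cexp
  have h3 := h2.smul (hψ.differentiable (by simp)).differentiableAt.hasFDerivAt
  have h4 : fderiv ℝ (fun y => s2c_ex ξ y • ψ y) x = _ := h3.fderiv
  unfold s2c_DD
  rw [h4, an_eq_sum (fr ξ) (ψ x), Finset.smul_sum, Finset.smul_sum, ← Finset.sum_add_distrib]
  refine Finset.sum_congr rfl fun j _ => ?_
  simp only [add_apply, ContinuousLinearMap.smulRight_apply, smul_apply,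
    ContinuousLinearMap.comp_apply, Complex.ofRealCLM_apply, smul_eq_mul, map_add, map_smul,
    s2c_L_single]
  rw [smul_smul]
  congr 1
  simp only [fr, s2c_ex]
  congr 1
  ring

private theorem s2c_main (ξ : Fin n → ℤ) (z : V n) (hz : cr (fr ξ) z = 0) (ψ : E n → V n)
    (hψ : ContDiff ℝ ((⊤ : ℕ∞) : WithTop ℕ∞) ψ) (hc : HasCompactSupport ψ) :
    ∫ x, bp (s2c_DD ψ x) (s2c_ex ξ x • z) = 0 := by
  have h1 : ∀ x, bp (s2c_DD ψ x) (s2c_ex ξ x • z)
      = bp z (s2c_DD (fun y => s2c_ex ξ y • ψ y) x) := by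
    intro x
    rw [s2c_DD_ex ξ ψ hψ x, s2c_bp_add, s2c_bp_smul, s2c_bp_smul, s2c_bp_smul,
      s2c_bp_comm z (an (fr ξ) (ψ x)), bp_an, hz, s2c_bp_zero, mul_zero, add_zero,
      s2c_bp_comm z]
  simp only [h1]
  refine s2c_int_DD z _ ((s2c_ex_smooth ξ).smul hψ) ?_
  refine hc.mono ?_
  intro y hy h0
  apply hy
  simp only
  rw [h0, smul_zero]

private theorem s2c_nsq_ne (ξ : Fin n → ℤ) (hξ : ξ ≠ 0) : nsq (fr ξ) ≠ 0 := by
  intro h
  apply hξ
  unfold nsq at h
  rw [Finset.sum_eq_zero_iff_of_nonneg (fun _ _ => by positivity)] at h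
  funext j
  have := h j (Finset.mem_univ j)
  have h2 : fr ξ j = 0 := by
    exact pow_eq_zero_iff (two_ne_zero) |>.mp this
  unfold fr at h2
  exact_mod_cast h2

private theorem s2c_cont_bp {X : Type*} [TopologicalSpace X] {f h : X → V n} (hf : Continuous f)
    (hh : Continuous h) : Continuous fun x => bp (f x) (h x) := by
  unfold bp
  refine continuous_finsetSum _ fun i _ => ?_
  exact ((EuclideanSpace.proj i : V n →L[ℂ] ℂ).continuous.comp hf).mul
    ((EuclideanSpace.proj i : V n →L[ℂ] ℂ).continuous.comp hh)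

private theorem s2c_transfer (F : E n → ℂ) (hF : Continuous F) (h0 : ∀ x, x ∉ cube n → F x = 0) :
    ∫ x, F (rep n x) ∂(μT n) = ∫ x, F x := by
  rw [← integral_map (φ := rep n) measurable_rep.aemeasurable (hF.aestronglyMeasurable), map_rep]
  exact setIntegral_eq_integral_of_forall_compl_eq_zero h0

private theorem s2c_anl_deg (L : List (Fin n → ℝ)) : ∀ (k : ℕ) (x : V n),
    IsDeg (k + L.length) x → IsDeg k (anl L x) := by
  induction L with
  | nil => intro k x hx; exact hx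
  | cons v L ih =>
    intro k x hx
    have h1 : IsDeg (k + 1) (anl L x) := by
      apply ih (k + 1) x
      rw [List.length_cons] at hx
      have : k + 1 + L.length = k + (L.length + 1) := by ring
      rw [this]
      exact hx
    exact isDeg_an h1 v

private theorem s2c_deg_smul {k : ℕ} {x : V n} (hx : IsDeg k x) (c : ℂ) : IsDeg k (c • x) := by
  intro S hS
  rw [PiLp.smul_apply, hx S hS, smul_zero]

private theorem s2c_anl_zero (L : List (Fin n → ℝ)) : anl L (0 : V n) = 0 := by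
  induction L with
  | nil => rfl
  | cons v L ih =>
    change an v (anl L 0) = 0
    rw [ih, map_zero]

/-- `e_ξ Pj (j+k) ξ y` is a divergence. -/
private theorem s2c_div (l : ℕ) (ξ : Fin n → ℤ) (hξ : ξ ≠ 0) (y : V n) (x : E n) :
    s2c_ex ξ x • Pj l ξ y = s2c_DD (fun x => s2c_ex ξ x •
      ((((2 * Real.pi * Complex.I * nsq (fr ξ))⁻¹ : ℂ)) • cr (fr ξ) (dg l y))) x := by
  have hN := s2c_nsq_ne ξ hξ
  rw [s2c_DD_ex ξ _ contDiff_const x]
  have h1 : s2c_DD (fun _ : E n => (((2 * Real.pi * Complex.I * nsq (fr ξ))⁻¹ : ℂ)) •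
      cr (fr ξ) (dg l y)) x = 0 := by
    unfold s2c_DD
    simp
  rw [h1, smul_zero, zero_add]
  have h2 : Pj l ξ y = (((nsq (fr ξ))⁻¹ : ℝ) : ℂ) • an (fr ξ) (cr (fr ξ) (dg l y)) := rfl
  rw [h2, map_smul, smul_smul, smul_smul]
  congr 1
  have hπ : (Real.pi : ℂ) ≠ 0 := by exact_mod_cast Real.pi_ne_zero
  have hN' : ((nsq (fr ξ) : ℝ) : ℂ) ≠ 0 := by exact_mod_cast hN
  have hI := Complex.I_ne_zero
  push_cast
  field_simp

/-- The form `b ⌟ e_ξ (coexact)` is coclosed, `b = df_1 ∧ ... ∧ df_j`.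
PROOF: transfer to `E n` as in F3 (the form vanishes outside the cube because `1 ≤ j`).  For `ξ = 0` it is `0`.
Otherwise `e_ξ Pj (j+k) ξ y = ∑ i, an e_i (∂_i ψ)`, `ψ = (exp (2πi ξ·x)/(2πi nsq ξ)) • cr ξ (dg (j+k) y)`
(as in `torus_closed`), and by `DD_key` of F1 (with `B = an`) the contraction with the gradients is
`± ∑ i, an e_i (∂_i ψ')`, `ψ'` smooth with compact support in the cube, so
`∫ bp (∑ i, an e_i (∂_i ψ')) (exp (2πi ξ'·x) • z) = -2πi ∫ bp ψ' (exp • cr ξ' z) = 0` for every `z` with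
`cr ξ' z = 0`.  The contraction has degree `k`, so `y'` may be replaced by `dg k y'`; for `ξ' ≠ 0` take
`z = dg k y' - Pj k ξ' y'` (`dg_sub_Pj`, `cr_self`); for `ξ' = 0` take `z = dg k y'` (`cr 0 z = 0`,
`Pj_zero`). -/
theorem contraction_coclosed (j k : ℕ) (hj : 1 ≤ j) (h : j + k ≤ n) (g : E n → E n)
    (hg : ContDiff ℝ ((⊤ : ℕ∞) : WithTop ℕ∞) g) (hc : HasCompactSupport g)
    (hs : tsupport g ⊆ cube n) (ξ ξ' : Fin n → ℤ) (y y' : V n) :
    ∫ x, bp (anl (bl j (fderiv ℝ g (rep n x))).reverse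
        (UnitAddTorus.mFourier ξ x • Pj (j + k) ξ y))
      (UnitAddTorus.mFourier ξ' x • (y' - Pj k ξ' y')) ∂(μT n) = 0 := by
  rcases eq_or_ne ξ 0 with rfl | hξ
  · have : ∀ x : UnitAddTorus (Fin n), bp (anl (bl j (fderiv ℝ g (rep n x))).reverse
        (UnitAddTorus.mFourier 0 x • Pj (j + k) 0 y))
        (UnitAddTorus.mFourier ξ' x • (y' - Pj k ξ' y')) = 0 := by
      intro x
      rw [Pj_zero, smul_zero, s2c_anl_zero, s2c_bp_zero_left]
    simp only [this, integral_zero]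
  set L := s2c_cl g j with hL
  have hlen : L.length = j := s2c_cl_length g j (by omega)
  have hne : L ≠ [] := by
    intro h0
    rw [h0, List.length_nil] at hlen
    omega
  have hmem : ∀ f ∈ L, ContDiff ℝ ((⊤ : ℕ∞) : WithTop ℕ∞) f ∧ HasCompactSupport f :=
    fun f hf => s2c_cl_mem g hg hc j f hf
  set ψ : E n → V n := fun x => s2c_ex ξ x •
      ((((2 * Real.pi * Complex.I * nsq (fr ξ))⁻¹ : ℂ)) • cr (fr ξ) (dg (j + k) y)) with hψd
  have hψ : ContDiff ℝ ((⊤ : ℕ∞) : WithTop ℕ∞) ψ := (s2c_ex_smooth ξ).smul contDiff_const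
  have hφ := s2c_fld_smooth L (fun f hf => (hmem f hf).1) ψ hψ
  have hφc := s2c_fld_supp L hne (fun f hf => (hmem f hf).2) ψ
  -- the left factor
  have e1 : ∀ x : E n, anl (bl j (fderiv ℝ g x)).reverse (s2c_ex ξ x • Pj (j + k) ξ y)
      = ((-1 : ℂ) ^ L.length) • s2c_DD (s2c_fld L ψ) x := by
    intro x
    rw [s2c_bl g hg, s2c_div (j + k) ξ hξ y x]
    exact s2c_fld_DD L (fun f hf => (hmem f hf).1) ψ hψ x
  -- the degree
  have e2 : ∀ (x : E n) (c : ℂ), bp (anl (bl j (fderiv ℝ g x)).reverse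
      (s2c_ex ξ x • Pj (j + k) ξ y)) (c • (y' - Pj k ξ' y'))
      = bp (anl (bl j (fderiv ℝ g x)).reverse (s2c_ex ξ x • Pj (j + k) ξ y))
        (c • (dg k y' - Pj k ξ' y')) := by
    intro x c
    have hd : IsDeg k (anl (bl j (fderiv ℝ g x)).reverse (s2c_ex ξ x • Pj (j + k) ξ y)) := by
      apply s2c_anl_deg
      have h5 : ((bl j (fderiv ℝ g x)).reverse).length = j := by
        rw [s2c_bl g hg, List.length_map]
        exact hlen
      rw [h5, add_comm k j]
      exact s2c_deg_smul (isDeg_Pj _ _ _) _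
    rw [s2c_bp_smul, s2c_bp_smul, s2c_bp_sub, s2c_bp_sub, bp_dg_of_isDeg hd]
  have hz : cr (fr ξ') (dg k y' - Pj k ξ' y') = 0 := by
    rcases eq_or_ne ξ' 0 with rfl | hξ'
    · have : fr (0 : Fin n → ℤ) = 0 := by
        funext i
        simp [fr]
      rw [this, s2c_cr_zero]
    · rw [dg_sub_Pj k ξ' hξ', map_smul, cr_self, smul_zero]
  set F : E n → ℂ := fun x => bp (anl (bl j (fderiv ℝ g x)).reverse
      (s2c_ex ξ x • Pj (j + k) ξ y)) (s2c_ex ξ' x • (dg k y' - Pj k ξ' y')) with hF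
  have e3 : ∀ x, F x = (-1 : ℂ) ^ L.length * bp (s2c_DD (s2c_fld L ψ) x)
      (s2c_ex ξ' x • (dg k y' - Pj k ξ' y')) := by
    intro x
    rw [hF]
    simp only
    rw [e1, s2c_bp_comm, s2c_bp_smul, s2c_bp_comm]
  have hcF : Continuous F := by
    have h6 : F = fun x => (-1 : ℂ) ^ L.length * bp (s2c_DD (s2c_fld L ψ) x)
      (s2c_ex ξ' x • (dg k y' - Pj k ξ' y')) := funext e3
    rw [h6]
    refine continuous_const.mul (s2c_cont_bp ?_ ?_)
    · unfold s2c_DD
      refine continuous_finsetSum _ fun i _ => ?_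
      exact (s2c_bk i).continuous.comp
        ((hφ.continuous_fderiv (by simp)).clm_apply continuous_const)
    · exact (s2c_ex_smooth ξ').continuous.smul continuous_const
  have h0F : ∀ x, x ∉ cube n → F x = 0 := by
    intro x hx
    have h7 : fderiv ℝ g x = 0 := fderiv_of_notMem_tsupport ℝ fun h => hx (hs h)
    have h8 : ∀ f ∈ L, s2c_gr f x = 0 := by
      intro f hf
      have hf2 := List.mem_of_mem_take (List.mem_reverse.mp hf)
      rw [List.mem_ofFn] at hf2
      obtain ⟨i, rfl⟩ := hf2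
      funext i'
      simp only [s2c_gr, s2c_fderiv_comp g hg, h7]
      simp
    have h9 : ∀ w : V n, anl (L.map fun f => s2c_gr f x) w = 0 := by
      intro w
      cases hL' : L with
      | nil => exact absurd hL' hne
      | cons f M =>
        change an (s2c_gr f x) _ = 0
        rw [h8 f (by rw [hL']; simp), s2c_an_zero]
    rw [hF]
    simp only
    rw [s2c_bl g hg, h9, s2c_bp_zero_left]
  have e4 : ∀ x : UnitAddTorus (Fin n), bp (anl (bl j (fderiv ℝ g (rep n x))).reverse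
        (UnitAddTorus.mFourier ξ x • Pj (j + k) ξ y))
      (UnitAddTorus.mFourier ξ' x • (y' - Pj k ξ' y')) = F (rep n x) := by
    intro x
    have h10 : ∀ η : Fin n → ℤ, UnitAddTorus.mFourier η x = s2c_ex η (rep n x) := by
      intro η
      rw [mFourier_rep, s2c_ex, s2c_L_apply]
    rw [h10 ξ, h10 ξ', e2]
  refine (integral_congr_ae (Filter.Eventually.of_forall e4)).trans ?_
  rw [s2c_transfer F hcF h0F]
  simp only [e3]
  rw [integral_const_mul, s2c_main ξ' _ hz _ hφ hφc, mul_zero]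

end Pool.Agent.Lib.QR
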