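import Pool.Agent.Lib.MP_ba1c0b_an.D2

/-!
S3 (third stage): the a priori estimate with a product, abstract form.
-/

set_option autoImplicit false

open MeasureTheory
open scoped ENNReal

namespace Pool.Agent.Lib.QR

private lemma s3_bp_le {ι : Type*} [Fintype ι] (x y : EuclideanSpace ℂ ι) :
    ‖bp x y‖ ≤ ‖x‖ * ‖y‖ := by
  unfold bp
  calc ‖∑ i, x i * y i‖ ≤ ∑ i, ‖x i‖ * ‖y i‖ := by
        refine (norm_sum_le _ _).trans (le_of_eq ?_)
        exact Finset.sum_congr rfl fun i _ => norm_mul _ _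
    _ ≤ Real.sqrt (∑ i, ‖x i‖ ^ 2) * Real.sqrt (∑ i, ‖y i‖ ^ 2) :=
        Real.sum_mul_le_sqrt_mul_sqrt _ _ _
    _ = ‖x‖ * ‖y‖ := by rw [EuclideanSpace.norm_eq, EuclideanSpace.norm_eq]

private lemma s3_bp_cont {ι : Type*} [Fintype ι] :
    Continuous fun p : EuclideanSpace ℂ ι × EuclideanSpace ℂ ι => bp p.1 p.2 := by
  unfold bp
  fun_prop

private lemma s3_bp_sub {ι : Type*} [Fintype ι] (x y z : EuclideanSpace ℂ ι) :
    bp (x - y) z = bp x z - bp y z := by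
  unfold bp
  rw [← Finset.sum_sub_distrib]
  refine Finset.sum_congr rfl fun i _ => ?_
  rw [PiLp.sub_apply]
  ring

private lemma s3_bp_sub' {ι : Type*} [Fintype ι] (x y z : EuclideanSpace ℂ ι) :
    bp x (y - z) = bp x y - bp x z := by
  unfold bp
  rw [← Finset.sum_sub_distrib]
  refine Finset.sum_congr rfl fun i _ => ?_
  rw [PiLp.sub_apply]
  ring

/-- Hölder for the bilinear pairing. -/
private lemma s3_holder {X : Type*} [MeasurableSpace X] (μ : Measure X) [IsProbabilityMeasure μ]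
    {ι : Type*} [Fintype ι] {r r' : ℝ} (hrr : r.HolderConjugate r')
    (w k : X → EuclideanSpace ℂ ι) (hw : MemLp w (ENNReal.ofReal r) μ)
    (hk : MemLp k (ENNReal.ofReal r') μ) :
    Integrable (fun x => bp (w x) (k x)) μ ∧
      ‖∫ x, bp (w x) (k x) ∂μ‖ ≤
        (∫ x, ‖w x‖ ^ r ∂μ) ^ (1 / r) * (∫ x, ‖k x‖ ^ r' ∂μ) ^ (1 / r') := by
  have := hrr.ennrealOfReal
  have h1 : Integrable (fun x => ‖w x‖ * ‖k x‖) μ := hw.norm.integrable_mul hk.norm
  have h2 : AEStronglyMeasurable (fun x => bp (w x) (k x)) μ :=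
    s3_bp_cont.comp_aestronglyMeasurable (hw.1.prodMk hk.1)
  refine ⟨h1.mono' h2 (Filter.Eventually.of_forall fun x => s3_bp_le _ _), ?_⟩
  refine (norm_integral_le_of_norm_le h1 (Filter.Eventually.of_forall fun x =>
    s3_bp_le (w x) (k x))).trans ?_
  exact integral_mul_le_Lp_mul_Lq_of_nonneg hrr
    (Filter.Eventually.of_forall fun x => norm_nonneg (w x))
    (Filter.Eventually.of_forall fun x => norm_nonneg (k x)) hw.norm hk.norm

/-- The conjugate vector. -/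
private noncomputable def s3_conj {ι : Type*} (y : EuclideanSpace ℂ ι) : EuclideanSpace ℂ ι :=
  WithLp.toLp 2 (fun i => (starRingEnd ℂ) (y i))

private lemma s3_conj_cont {ι : Type*} [Fintype ι] :
    Continuous fun y : EuclideanSpace ℂ ι => s3_conj y := by
  unfold s3_conj
  fun_prop

private lemma s3_conj_norm {ι : Type*} [Fintype ι] (y : EuclideanSpace ℂ ι) :
    ‖s3_conj y‖ = ‖y‖ := by
  rw [EuclideanSpace.norm_eq, EuclideanSpace.norm_eq]
  congr 1
  refine Finset.sum_congr rfl fun i _ => ?_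
  simp [s3_conj]

private lemma s3_bp_conj {ι : Type*} [Fintype ι] (y : EuclideanSpace ℂ ι) (c : ℂ) :
    bp y (c • s3_conj y) = c * ((‖y‖ ^ 2 : ℝ) : ℂ) := by
  unfold bp
  rw [EuclideanSpace.norm_sq_eq]
  push_cast
  rw [Finset.mul_sum]
  refine Finset.sum_congr rfl fun i _ => ?_
  rw [PiLp.smul_apply, smul_eq_mul]
  have h1 : (s3_conj y) i = (starRingEnd ℂ) (y i) := rfl
  rw [h1]
  have h2 : y i * (starRingEnd ℂ) (y i) = ((‖y i‖ : ℝ) : ℂ) ^ 2 := by
    rw [Complex.mul_conj, Complex.normSq_eq_norm_sq]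
    push_cast
    rfl
  rw [← h2]
  ring

/-- The test functions. -/
private lemma s3_test {X : Type*} [MeasurableSpace X] (μ : Measure X) [IsProbabilityMeasure μ]
    {ι : Type*} [Fintype ι] {P : ℝ} [Fact (1 ≤ ENNReal.ofReal P)] {t : ℝ} (ht : 1 < t)
    (h : X → EuclideanSpace ℂ ι) (hh : AEStronglyMeasurable h μ) (N : ℝ) (hN : 0 ≤ N) :
    ∃ g : Lp (EuclideanSpace ℂ ι) (ENNReal.ofReal P) μ,
      (∀ᵐ x ∂μ, bp (h x) (g x) = (({x | ‖h x‖ ≤ N}.indicator (fun x => ‖h x‖ ^ t) x : ℝ) : ℂ)) ∧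
      ∀ᵐ x ∂μ, ‖g x‖ ^ (t / (t - 1)) = {x | ‖h x‖ ≤ N}.indicator (fun x => ‖h x‖ ^ t) x := by
  have ht1 : 0 < t - 1 := by linarith
  set f : X → EuclideanSpace ℂ ι := {x | ‖h x‖ ≤ N}.indicator
    (fun x => ((‖h x‖ ^ (t - 2) : ℝ) : ℂ) • s3_conj (h x)) with hf
  have hnorm : ∀ x, ‖((‖h x‖ ^ (t - 2) : ℝ) : ℂ) • s3_conj (h x)‖ = ‖h x‖ ^ (t - 1) := by
    intro x
    rw [norm_smul, s3_conj_norm, Complex.norm_real,
      Real.norm_of_nonneg (Real.rpow_nonneg (norm_nonneg _) _)]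
    rcases eq_or_lt_of_le (norm_nonneg (h x)) with h0 | h0
    · rw [← h0, mul_zero, Real.zero_rpow ht1.ne']
    · have h1 : t - 1 = (t - 2) + 1 := by ring
      rw [h1, Real.rpow_add h0, Real.rpow_one]
  have hmeas : AEStronglyMeasurable f μ := by
    have ha : AEStronglyMeasurable (fun x => ((‖h x‖ ^ (t - 2) : ℝ) : ℂ)) μ :=
      Complex.continuous_ofReal.comp_aestronglyMeasurable
        ((hh.norm.aemeasurable.pow_const (t - 2)).aestronglyMeasurable)
    have hb : AEStronglyMeasurable (fun x => s3_conj (h x)) μ :=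
      s3_conj_cont.comp_aestronglyMeasurable hh
    refine AEStronglyMeasurable.indicator₀ (ha.smul hb) ?_
    exact nullMeasurableSet_le hh.norm.aemeasurable aemeasurable_const
  have hmem : MemLp f (ENNReal.ofReal P) μ := by
    refine MemLp.of_bound hmeas (N ^ (t - 1)) (Filter.Eventually.of_forall fun x => ?_)
    rw [hf]
    by_cases hx : x ∈ {x | ‖h x‖ ≤ N}
    · rw [Set.indicator_of_mem hx, hnorm]
      exact Real.rpow_le_rpow (norm_nonneg _) hx ht1.le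
    · rw [Set.indicator_of_notMem hx, norm_zero]
      exact Real.rpow_nonneg hN _
  refine ⟨hmem.toLp f, ?_, ?_⟩
  · filter_upwards [hmem.coeFn_toLp] with x hx
    rw [hx, hf]
    by_cases hx : x ∈ {x | ‖h x‖ ≤ N}
    · rw [Set.indicator_of_mem hx, Set.indicator_of_mem hx, s3_bp_conj, ← Complex.ofReal_mul]
      congr 1
      rcases eq_or_lt_of_le (norm_nonneg (h x)) with h0 | h0
      · rw [← h0, Real.zero_rpow (by linarith : t ≠ 0)]
        simp
      · rw [← Real.rpow_natCast, ← Real.rpow_add h0]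
        congr 1
        push_cast
        ring
    · rw [Set.indicator_of_notMem hx, Set.indicator_of_notMem hx]
      simp [bp]
  · filter_upwards [hmem.coeFn_toLp] with x hx
    rw [hx, hf]
    by_cases hx : x ∈ {x | ‖h x‖ ≤ N}
    · rw [Set.indicator_of_mem hx, Set.indicator_of_mem hx, hnorm,
        ← Real.rpow_mul (norm_nonneg _), mul_div_cancel₀ _ ht1.ne']
    · rw [Set.indicator_of_notMem hx, Set.indicator_of_notMem hx, norm_zero,
        Real.zero_rpow (div_pos (by linarith) ht1).ne']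

/-- PROOF: test with the functions of `d3g_test` (D3g, private: `G = conj h ‖h‖^(t-2)` on `{‖h‖ ≤ N}`), i.e.
`I_N ≤ B I_N^((t-1)/t)`, `I_N = ∫ over {‖h‖ ≤ N} of ‖h‖^t < ∞`, so `I_N^(1/t) ≤ B`; let `N → ∞` (monotone or
dominated convergence), as in `apriori_gen`. -/
theorem norm_of_dual {X : Type*} [MeasurableSpace X] (μ : Measure X) [IsProbabilityMeasure μ]
    {ι : Type*} [Fintype ι] {P : ℝ} [Fact (1 ≤ ENNReal.ofReal P)] {t B : ℝ} (ht : 1 < t)
    (hB : 0 ≤ B) (h : X → EuclideanSpace ℂ ι) (hh : MemLp h (ENNReal.ofReal t) μ)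
    (hd : ∀ G : Lp (EuclideanSpace ℂ ι) (ENNReal.ofReal P) μ,
      ‖∫ x, bp (h x) (G x) ∂μ‖ ≤ B * (∫ x, ‖G x‖ ^ (t / (t - 1)) ∂μ) ^ ((t - 1) / t)) :
    (∫ x, ‖h x‖ ^ t ∂μ) ^ (1 / t) ≤ B := by
  have ht0 : 0 < t := by linarith
  have ht1 : 0 < t - 1 := by linarith
  have hhm : AEStronglyMeasurable h μ := hh.1
  have hAint : Integrable (fun x => ‖h x‖ ^ t) μ := by
    have h1 := hh.integrable_norm_rpow (by simpa using ht0) ENNReal.ofReal_ne_top
    rwa [ENNReal.toReal_ofReal ht0.le] at h1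
  have hA0 : 0 ≤ ∫ x, ‖h x‖ ^ t ∂μ := integral_nonneg fun x => Real.rpow_nonneg (norm_nonneg _) _
  have hkey : ∀ N : ℝ, 0 ≤ N →
      ∫ x, {x | ‖h x‖ ≤ N}.indicator (fun x => ‖h x‖ ^ t) x ∂μ ≤ B ^ t := by
    intro N hN
    obtain ⟨g, hg1, hg2⟩ := s3_test (P := P) μ ht h hhm N hN
    set I : ℝ := ∫ x, {x | ‖h x‖ ≤ N}.indicator (fun x => ‖h x‖ ^ t) x ∂μ with hI
    have hI0 : 0 ≤ I := integral_nonneg fun x => by
      refine Set.indicator_nonneg (fun y _ => Real.rpow_nonneg (norm_nonneg _) _) x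
    have hgI : ∫ x, ‖g x‖ ^ (t / (t - 1)) ∂μ = I := integral_congr_ae hg2
    have h1 : (I : ℂ) = ∫ x, bp (h x) (g x) ∂μ := by
      rw [integral_congr_ae hg1, hI]
      exact integral_complex_ofReal.symm
    have h2 := hd g
    rw [hgI, ← h1, Complex.norm_real, Real.norm_of_nonneg hI0] at h2
    rcases eq_or_lt_of_le hI0 with hz | hz
    · rw [← hz]
      exact Real.rpow_nonneg hB _
    · have e8 : I = I ^ (1 / t) * I ^ ((t - 1) / t) := by
        rw [← Real.rpow_add hz]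
        have h3 : 1 / t + (t - 1) / t = 1 := by field_simp; ring
        rw [h3, Real.rpow_one]
      have hI2 : 0 < I ^ ((t - 1) / t) := Real.rpow_pos_of_pos hz _
      have e9 : I ^ (1 / t) ≤ B := by
        have e10 : I ^ (1 / t) * I ^ ((t - 1) / t) ≤ B * I ^ ((t - 1) / t) := by
          rw [← e8]
          exact h2
        exact le_of_mul_le_mul_right e10 hI2
      calc I = (I ^ (1 / t)) ^ t := by
            rw [← Real.rpow_mul hI0, one_div_mul_cancel ht0.ne', Real.rpow_one]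
        _ ≤ B ^ t := Real.rpow_le_rpow (Real.rpow_nonneg hI0 _) e9 ht0.le
  have hlim : Filter.Tendsto
      (fun N : ℕ => ∫ x, {x | ‖h x‖ ≤ (N : ℝ)}.indicator (fun x => ‖h x‖ ^ t) x ∂μ)
      Filter.atTop (nhds (∫ x, ‖h x‖ ^ t ∂μ)) := by
    refine tendsto_integral_of_dominated_convergence (fun x => ‖h x‖ ^ t) ?_ hAint ?_ ?_
    · intro N
      exact (hAint.aestronglyMeasurable).indicator₀
        (nullMeasurableSet_le hhm.norm.aemeasurable aemeasurable_const)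
    · intro N
      refine Filter.Eventually.of_forall fun x => ?_
      have h1 : 0 ≤ ‖h x‖ ^ t := Real.rpow_nonneg (norm_nonneg _) _
      by_cases hx : x ∈ {x | ‖h x‖ ≤ (N : ℝ)}
      · rw [Set.indicator_of_mem hx, Real.norm_of_nonneg h1]
      · rw [Set.indicator_of_notMem hx, norm_zero]
        exact h1
    · refine Filter.Eventually.of_forall fun x => ?_
      refine tendsto_const_nhds.congr' ?_
      filter_upwards [Filter.eventually_ge_atTop ⌈‖h x‖⌉₊] with N hN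
      have hx : x ∈ {x | ‖h x‖ ≤ (N : ℝ)} := by
        have h1 : ‖h x‖ ≤ (⌈‖h x‖⌉₊ : ℝ) := Nat.le_ceil _
        have h2 : ((⌈‖h x‖⌉₊ : ℕ) : ℝ) ≤ (N : ℝ) := by exact_mod_cast hN
        exact h1.trans h2
      rw [Set.indicator_of_mem hx]
  have hAc : ∫ x, ‖h x‖ ^ t ∂μ ≤ B ^ t :=
    le_of_tendsto' hlim fun N => hkey N (Nat.cast_nonneg N)
  calc (∫ x, ‖h x‖ ^ t ∂μ) ^ (1 / t) ≤ (B ^ t) ^ (1 / t) :=
        Real.rpow_le_rpow hA0 hAc (by positivity)
    _ = B := by rw [← Real.rpow_mul hB, mul_one_div_cancel ht0.ne', Real.rpow_one]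

/-- PROOF.  Write `t1 = q/(k+1)`, `t = q/(j+k+1)`, `w = T1 a`, `e = W (T1 a)`, `e0 = W a`, `H = e0 - v`.
(1) For `G ∈ L^P1`: `∫ bp w G = ∫ bp a (T1 G)` (`hsym`), so `hinner` and `norm_of_dual` give
`(∫ ‖w‖^t1)^(1/t1) ≤ K (∫ ‖u‖^(q/k))^((k+1)/q) ≤ K (∫ D^q)^(1/t1)` (`w ∈ L^P1 ⊆ L^t1`, `‖u‖^(q/k) ≤ D^q`).
(2) Hölder with `1/t = j/q + 1/t1`: `(∫ ‖e‖^t)^(1/t) ≤ (∫ D^q)^(j/q) (∫ ‖w‖^t1)^(1/t1) ≤ K (∫ D^q)^(1/t)`
(for `j = 0` trivial; `j/q + (k+1)/q = 1/t`).
(3) For `G ∈ L^P2`: `∫ bp v G = ∫ bp v (T2 G)` (`hfix`) `= ∫ bp e0 (T2 G) - ∫ bp H (T2 G)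
= ∫ bp e (T2 G) - ∫ bp H (T2 G)` (`hwedge`, `hWsub`), and `pair_le` for `T2` with exponent `t` bounds both
terms: `‖∫ bp v G‖ ≤ M2 ((∫‖e‖^t)^(1/t) + (∫‖H‖^t)^(1/t)) (∫‖G‖^(t/(t-1)))^((t-1)/t)`.  Finally
`norm_of_dual` with `P = P2`. -/
theorem apriori3 {X : Type*} [MeasurableSpace X] (μ : Measure X) [IsProbabilityMeasure μ]
    {ι : Type*} [Fintype ι] {P1 P2 M2 : ℝ} (hP1 : 2 < P1) [Fact (1 ≤ ENNReal.ofReal P1)]
    (hP2 : 2 < P2) [Fact (1 ≤ ENNReal.ofReal P2)] (hM2 : 1 ≤ M2)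
    (T1 : Lp (EuclideanSpace ℂ ι) (ENNReal.ofReal P1) μ →L[ℂ]
      Lp (EuclideanSpace ℂ ι) (ENNReal.ofReal P1) μ)
    (T2 : Lp (EuclideanSpace ℂ ι) (ENNReal.ofReal P2) μ →L[ℂ]
      Lp (EuclideanSpace ℂ ι) (ENNReal.ofReal P2) μ) (hT2 : IsProj μ P2 M2 T2)
    (hsym : ∀ g h : Lp (EuclideanSpace ℂ ι) (ENNReal.ofReal P1) μ,
      ∫ x, bp (T1 g x) (h x) ∂μ = ∫ x, bp (g x) (T1 h x) ∂μ)
    {q K t1 t : ℝ} {j k : ℕ} (hk : 1 ≤ k) (hq : 0 < q) (hK : 0 ≤ K)
    (ht1 : t1 = q / (k + 1)) (ht : t = q / (j + k + 1))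
    (ht11 : 1 < t1) (ht1P : t1 < P1) (htP' : P2 / (P2 - 1) < t) (htP : t < P2)
    (u v : X → EuclideanSpace ℂ ι) (D : X → ℝ)
    (W : X → EuclideanSpace ℂ ι → EuclideanSpace ℂ ι)
    (hu : MemLp u ⊤ μ) (hv : MemLp v ⊤ μ) (hD : MemLp D ⊤ μ) (hD0 : ∀ x, 0 ≤ D x)
    (hWm : ∀ f : X → EuclideanSpace ℂ ι, AEStronglyMeasurable f μ →
      AEStronglyMeasurable (fun x => W x (f x)) μ)
    (hWsub : ∀ x y z, W x (y - z) = W x y - W x z)
    (hWn : ∀ x y, ‖W x y‖ ≤ D x ^ j * ‖y‖) (hun : ∀ x, ‖u x‖ ≤ D x ^ k)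
    (hinner : ∀ G : Lp (EuclideanSpace ℂ ι) (ENNReal.ofReal P1) μ,
      ‖∫ x, bp (((‖u x‖ ^ ((1 : ℝ) / k) : ℝ) : ℂ) • u x) (T1 G x) ∂μ‖
        ≤ K * (∫ x, ‖u x‖ ^ (q / k) ∂μ) ^ ((k + 1 : ℝ) / q)
          * (∫ x, ‖G x‖ ^ (t1 / (t1 - 1)) ∂μ) ^ ((t1 - 1) / t1))
    (hfix : ∀ G : Lp (EuclideanSpace ℂ ι) (ENNReal.ofReal P2) μ,
      ∫ x, bp (v x) (G x - T2 G x) ∂μ = 0)
    (a : Lp (EuclideanSpace ℂ ι) (ENNReal.ofReal P1) μ)
    (ha : (a : X → EuclideanSpace ℂ ι) =ᵐ[μ]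
      fun x => ((‖u x‖ ^ ((1 : ℝ) / k) : ℝ) : ℂ) • u x)
    (hwedge : ∀ G : Lp (EuclideanSpace ℂ ι) (ENNReal.ofReal P2) μ,
      ∫ x, bp (W x (a x - T1 a x)) (T2 G x) ∂μ = 0) :
    (∫ x, ‖v x‖ ^ t ∂μ) ^ (1 / t)
      ≤ M2 * (K * (∫ x, D x ^ q ∂μ) ^ (1 / t)
        + (∫ x, ‖W x (((‖u x‖ ^ ((1 : ℝ) / k) : ℝ) : ℂ) • u x) - v x‖ ^ t ∂μ) ^ (1 / t)) := by
  -- numbers
  have hk0 : (0 : ℝ) < k := by exact_mod_cast hk
  have hj0 : (0 : ℝ) ≤ j := Nat.cast_nonneg j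
  have hP20 : 0 < P2 - 1 := by linarith
  have hPc : 1 < P2 / (P2 - 1) := by rw [one_lt_div hP20]; linarith
  have ht11' : 1 < t := hPc.trans htP'
  have ht0 : 0 < t := by linarith
  have ht10 : 0 < t1 := by linarith
  have htt1 : t ≤ t1 := by
    rw [ht, ht1]
    exact div_le_div_of_nonneg_left hq.le (by linarith) (by linarith)
  have htinv : 1 / t = (j : ℝ) / q + 1 / t1 := by
    rw [ht, ht1]
    field_simp
    ring
  have ht1inv : 1 / t1 = ((k : ℝ) + 1) / q := by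
    rw [ht1, one_div_div]
  -- bounds of `D`, `u`, `v`
  obtain ⟨CD, hCD0, hCD⟩ : ∃ C : ℝ, 0 ≤ C ∧ ∀ᵐ x ∂μ, D x ≤ C := by
    have h1 : eLpNormEssSup D μ < ⊤ := by
      rw [← eLpNorm_exponent_top]
      exact hD.2
    refine ⟨(eLpNormEssSup D μ).toReal, ENNReal.toReal_nonneg, ?_⟩
    filter_upwards [ae_le_eLpNormEssSup (f := D) (μ := μ)] with x hx
    have h2 : ‖D x‖ ≤ (eLpNormEssSup D μ).toReal := by
      rw [← toReal_enorm]
      exact ENNReal.toReal_mono h1.ne hx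
    exact (le_abs_self _).trans h2
  have hDm : AEStronglyMeasurable D μ := hD.1
  have hDint : Integrable (fun x => D x ^ q) μ := by
    refine Integrable.of_bound (hDm.aemeasurable.pow_const q).aestronglyMeasurable (CD ^ q) ?_
    filter_upwards [hCD] with x hx
    rw [Real.norm_of_nonneg (Real.rpow_nonneg (hD0 x) _)]
    exact Real.rpow_le_rpow (hD0 x) hx hq.le
  have hDq0 : 0 ≤ ∫ x, D x ^ q ∂μ := integral_nonneg fun x => Real.rpow_nonneg (hD0 x) _
  have huD : ∀ x, ‖u x‖ ^ (q / k) ≤ D x ^ q := by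
    intro x
    calc ‖u x‖ ^ (q / k) ≤ (D x ^ k) ^ (q / k) :=
          Real.rpow_le_rpow (norm_nonneg _) (hun x) (by positivity)
      _ = D x ^ q := by
          rw [← Real.rpow_natCast, ← Real.rpow_mul (hD0 x), mul_div_cancel₀ _ hk0.ne']
  have huint : Integrable (fun x => ‖u x‖ ^ (q / k)) μ := by
    refine hDint.mono' (hu.1.norm.aemeasurable.pow_const _).aestronglyMeasurable
      (Filter.Eventually.of_forall fun x => ?_)
    rw [Real.norm_of_nonneg (Real.rpow_nonneg (norm_nonneg _) _)]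
    exact huD x
  have hIu : (∫ x, ‖u x‖ ^ (q / k) ∂μ) ^ (((k : ℝ) + 1) / q) ≤ (∫ x, D x ^ q ∂μ) ^ (1 / t1) := by
    rw [ht1inv]
    exact Real.rpow_le_rpow (integral_nonneg fun x => Real.rpow_nonneg (norm_nonneg _) _)
      (integral_mono huint hDint huD) (by positivity)
  -- step 1
  set b : X → EuclideanSpace ℂ ι := fun x => ((‖u x‖ ^ ((1 : ℝ) / k) : ℝ) : ℂ) • u x with hb
  have hw1 : MemLp (T1 a : X → EuclideanSpace ℂ ι) (ENNReal.ofReal t1) μ :=
    (Lp.memLp (T1 a)).mono_exponent (ENNReal.ofReal_le_ofReal ht1P.le)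
  have hwt : MemLp (T1 a : X → EuclideanSpace ℂ ι) (ENNReal.ofReal t) μ :=
    hw1.mono_exponent (ENNReal.ofReal_le_ofReal htt1)
  have step1 : (∫ x, ‖T1 a x‖ ^ t1 ∂μ) ^ (1 / t1) ≤ K * (∫ x, D x ^ q ∂μ) ^ (1 / t1) := by
    refine (norm_of_dual (P := P1) μ ht11
      (B := K * (∫ x, ‖u x‖ ^ (q / k) ∂μ) ^ (((k : ℝ) + 1) / q)) ?_ _ hw1 fun G => ?_).trans ?_
    · exact mul_nonneg hK (Real.rpow_nonneg
        (integral_nonneg fun x => Real.rpow_nonneg (norm_nonneg _) _) _)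
    · rw [hsym a G]
      have h1 : ∫ x, bp (a x) (T1 G x) ∂μ = ∫ x, bp (b x) (T1 G x) ∂μ := by
        refine integral_congr_ae ?_
        filter_upwards [ha] with x hx
        rw [hx]
      rw [h1]
      exact hinner G
    · exact mul_le_mul_of_nonneg_left hIu hK
  -- step 2
  have hem : AEStronglyMeasurable (fun x => W x (T1 a x)) μ :=
    hWm _ (Lp.aestronglyMeasurable (T1 a))
  have heL : MemLp (fun x => W x (T1 a x)) (ENNReal.ofReal t) μ := by
    refine MemLp.of_le_mul (c := CD ^ j) hwt hem ?_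
    filter_upwards [hCD] with x hx
    exact (hWn x _).trans (mul_le_mul_of_nonneg_right (pow_le_pow_left₀ (hD0 x) hx j)
      (norm_nonneg _))
  have step2 : (∫ x, ‖W x (T1 a x)‖ ^ t ∂μ) ^ (1 / t) ≤ K * (∫ x, D x ^ q ∂μ) ^ (1 / t) := by
    obtain ⟨I, hI⟩ : ∃ I : ℝ, I = ∫ x, D x ^ q ∂μ := ⟨_, rfl⟩
    obtain ⟨J, hJ⟩ : ∃ J : ℝ, J = ∫ x, ‖T1 a x‖ ^ t1 ∂μ := ⟨_, rfl⟩
    rw [← hI] at hDq0 step1 ⊢
    rw [← hJ] at step1
    have hJ0 : 0 ≤ J := by
      rw [hJ]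
      exact integral_nonneg fun x => Real.rpow_nonneg (norm_nonneg _) _
    have he0' : 0 ≤ ∫ x, ‖W x (T1 a x)‖ ^ t ∂μ :=
      integral_nonneg fun x => Real.rpow_nonneg (norm_nonneg _) _
    have heint : Integrable (fun x => ‖W x (T1 a x)‖ ^ t) μ := by
      have h1 := heL.integrable_norm_rpow (by simpa using ht0) ENNReal.ofReal_ne_top
      rwa [ENNReal.toReal_ofReal ht0.le] at h1
    have hmain : ∫ x, ‖W x (T1 a x)‖ ^ t ∂μ ≤ I ^ ((j : ℝ) * t / q) * J ^ (t / t1) := by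
      rcases Nat.eq_zero_or_pos j with hj | hj
      · subst hj
        have htt : t = t1 := by
          rw [ht, ht1]
          simp
        have h1 : ∫ x, ‖W x (T1 a x)‖ ^ t ∂μ ≤ J := by
          rw [hJ, ← htt]
          refine integral_mono heint ?_ fun x => ?_
          · have h1 := hwt.integrable_norm_rpow (by simpa using ht0) ENNReal.ofReal_ne_top
            rwa [ENNReal.toReal_ofReal ht0.le] at h1
          · refine Real.rpow_le_rpow (norm_nonneg _) ?_ ht0.le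
            simpa using hWn x (T1 a x)
        refine h1.trans (le_of_eq ?_)
        rw [htt, div_self ht10.ne', Real.rpow_one]
        simp
      · have hjp : (0 : ℝ) < j := by exact_mod_cast hj
        have hjt : 0 < (j : ℝ) * t := mul_pos hjp ht0
        have hcj : (q / (j * t)).HolderConjugate (t1 / t) := by
          rw [Real.holderConjugate_iff]
          constructor
          · rw [one_lt_div hjt, ht, mul_div_assoc', div_lt_iff₀ (by linarith)]
            nlinarith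
          · rw [inv_div, inv_div, ht1, ht]
            field_simp
            ring
        have hf : MemLp (fun x => D x ^ ((j : ℝ) * t)) (ENNReal.ofReal (q / (j * t))) μ := by
          refine MemLp.of_bound (hDm.aemeasurable.pow_const _).aestronglyMeasurable
            (CD ^ ((j : ℝ) * t)) ?_
          filter_upwards [hCD] with x hx
          rw [Real.norm_of_nonneg (Real.rpow_nonneg (hD0 x) _)]
          exact Real.rpow_le_rpow (hD0 x) hx hjt.le
        have hg : MemLp (fun x => ‖T1 a x‖ ^ t) (ENNReal.ofReal (t1 / t)) μ := by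
          have h1 := hw1.norm_rpow_div (ENNReal.ofReal t)
          rwa [← ENNReal.ofReal_div_of_pos ht0, ENNReal.toReal_ofReal ht0.le] at h1
        have h1 := integral_mul_le_Lp_mul_Lq_of_nonneg hcj
          (Filter.Eventually.of_forall fun x => Real.rpow_nonneg (hD0 x) ((j : ℝ) * t))
          (Filter.Eventually.of_forall fun x => Real.rpow_nonneg (norm_nonneg (T1 a x)) t) hf hg
        have h2 : ∫ x, (D x ^ ((j : ℝ) * t)) ^ (q / (j * t)) ∂μ = I := by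
          rw [hI]
          refine integral_congr_ae (Filter.Eventually.of_forall fun x => ?_)
          dsimp only
          rw [← Real.rpow_mul (hD0 x), mul_div_cancel₀ _ hjt.ne']
        have h3 : ∫ x, (‖T1 a x‖ ^ t) ^ (t1 / t) ∂μ = J := by
          rw [hJ]
          refine integral_congr_ae (Filter.Eventually.of_forall fun x => ?_)
          dsimp only
          rw [← Real.rpow_mul (norm_nonneg _), mul_div_cancel₀ _ ht0.ne']
        rw [h2, h3, one_div_div, one_div_div] at h1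
        refine le_trans (integral_mono heint ?_ fun x => ?_) h1
        · have := hcj.ennrealOfReal
          exact hf.integrable_mul hg
        · dsimp only
          calc ‖W x (T1 a x)‖ ^ t ≤ (D x ^ j * ‖T1 a x‖) ^ t :=
                Real.rpow_le_rpow (norm_nonneg _) (hWn x _) ht0.le
            _ = D x ^ ((j : ℝ) * t) * ‖T1 a x‖ ^ t := by
                rw [Real.mul_rpow (pow_nonneg (hD0 x) _) (norm_nonneg _), ← Real.rpow_natCast,
                  ← Real.rpow_mul (hD0 x)]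
    calc (∫ x, ‖W x (T1 a x)‖ ^ t ∂μ) ^ (1 / t)
        ≤ (I ^ ((j : ℝ) * t / q) * J ^ (t / t1)) ^ (1 / t) :=
          Real.rpow_le_rpow he0' hmain (by positivity)
      _ = I ^ ((j : ℝ) / q) * J ^ (1 / t1) := by
          rw [Real.mul_rpow (Real.rpow_nonneg hDq0 _) (Real.rpow_nonneg hJ0 _),
            ← Real.rpow_mul hDq0, ← Real.rpow_mul hJ0]
          congr 2 <;> field_simp
      _ ≤ I ^ ((j : ℝ) / q) * (K * I ^ (1 / t1)) :=
          mul_le_mul_of_nonneg_left step1 (Real.rpow_nonneg hDq0 _)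
      _ = K * I ^ (1 / t) := by
          rw [htinv, Real.rpow_add_of_nonneg hDq0 (by positivity) (by positivity)]
          ring
  -- step 3
  have hbm : AEStronglyMeasurable b μ := by
    have ha' : AEStronglyMeasurable (fun x => ((‖u x‖ ^ ((1 : ℝ) / k) : ℝ) : ℂ)) μ :=
      Complex.continuous_ofReal.comp_aestronglyMeasurable
        ((hu.1.norm.aemeasurable.pow_const _).aestronglyMeasurable)
    exact ha'.smul hu.1
  have he0m : AEStronglyMeasurable (fun x => W x (b x)) μ := hWm _ hbm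
  have he0 : MemLp (fun x => W x (b x)) ⊤ μ := by
    refine memLp_top_of_bound he0m (CD ^ j * ((CD ^ k) ^ ((1 : ℝ) / k) * CD ^ k)) ?_
    filter_upwards [hCD] with x hx
    have h1 : ‖u x‖ ≤ CD ^ k := (hun x).trans (pow_le_pow_left₀ (hD0 x) hx k)
    have h2 : ‖b x‖ ≤ (CD ^ k) ^ ((1 : ℝ) / k) * CD ^ k := by
      rw [hb]
      dsimp only
      rw [norm_smul, Complex.norm_real, Real.norm_of_nonneg (Real.rpow_nonneg (norm_nonneg _) _)]
      exact mul_le_mul (Real.rpow_le_rpow (norm_nonneg _) h1 (by positivity)) h1 (norm_nonneg _)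
        (Real.rpow_nonneg (pow_nonneg hCD0 _) _)
    exact (hWn x _).trans (mul_le_mul (pow_le_pow_left₀ (hD0 x) hx j) h2 (norm_nonneg _)
      (pow_nonneg hCD0 _))
  have hHt : MemLp (fun x => W x (b x) - v x) (ENNReal.ofReal t) μ :=
    (he0.sub hv).mono_exponent le_top
  have he0t : MemLp (fun x => W x (b x)) (ENNReal.ofReal t) μ := he0.mono_exponent le_top
  have hvt : MemLp v (ENNReal.ofReal t) μ := hv.mono_exponent le_top
  have hconj : t.HolderConjugate (t / (t - 1)) := Real.HolderConjugate.conjExponent ht11'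
  have ht'P : t / (t - 1) ≤ P2 := by
    rw [div_le_iff₀ (by linarith)]
    rw [div_lt_iff₀ hP20] at htP'
    nlinarith
  have hgL : ∀ g : Lp (EuclideanSpace ℂ ι) (ENNReal.ofReal P2) μ,
      MemLp (g : X → EuclideanSpace ℂ ι) (ENNReal.ofReal (t / (t - 1))) μ := fun g =>
    (Lp.memLp g).mono_exponent (ENNReal.ofReal_le_ofReal ht'P)
  set Be : ℝ := (∫ x, ‖W x (T1 a x)‖ ^ t ∂μ) ^ (1 / t) with hBe
  set BH : ℝ := (∫ x, ‖W x (b x) - v x‖ ^ t ∂μ) ^ (1 / t) with hBH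
  have hBe0 : 0 ≤ Be := Real.rpow_nonneg
    (integral_nonneg fun x => Real.rpow_nonneg (norm_nonneg _) _) _
  have hBH0 : 0 ≤ BH := Real.rpow_nonneg
    (integral_nonneg fun x => Real.rpow_nonneg (norm_nonneg _) _) _
  refine (norm_of_dual (P := P2) μ ht11' (B := M2 * (Be + BH)) (by positivity) v hvt
    fun G => ?_).trans ?_
  · obtain ⟨i1, -⟩ := s3_holder μ hconj v _ hvt (hgL G)
    obtain ⟨i2, -⟩ := s3_holder μ hconj v _ hvt (hgL (T2 G))
    obtain ⟨i3, -⟩ := s3_holder μ hconj _ _ he0t (hgL (T2 G))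
    obtain ⟨i4, -⟩ := s3_holder μ hconj _ _ hHt (hgL (T2 G))
    obtain ⟨i5, -⟩ := s3_holder μ hconj _ _ heL (hgL (T2 G))
    have h1 : ∫ x, bp (v x) (G x) ∂μ = ∫ x, bp (v x) (T2 G x) ∂μ := by
      have h := hfix G
      have h' : ∫ x, bp (v x) (G x - T2 G x) ∂μ
          = ∫ x, bp (v x) (G x) ∂μ - ∫ x, bp (v x) (T2 G x) ∂μ := by
        rw [← integral_sub i1 i2]
        exact integral_congr_ae (Filter.Eventually.of_forall fun x => s3_bp_sub' _ _ _)
      rw [h'] at h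
      exact sub_eq_zero.1 h
    have h2 : ∫ x, bp (v x) (T2 G x) ∂μ
        = ∫ x, bp (W x (b x)) (T2 G x) ∂μ - ∫ x, bp (W x (b x) - v x) (T2 G x) ∂μ := by
      rw [← integral_sub i3 i4]
      refine integral_congr_ae (Filter.Eventually.of_forall fun x => ?_)
      simp only [s3_bp_sub]
      ring
    have h3 : ∫ x, bp (W x (b x)) (T2 G x) ∂μ = ∫ x, bp (W x (T1 a x)) (T2 G x) ∂μ := by
      have h := hwedge G
      have h' : ∫ x, bp (W x (a x - T1 a x)) (T2 G x) ∂μ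
          = ∫ x, bp (W x (b x)) (T2 G x) ∂μ - ∫ x, bp (W x (T1 a x)) (T2 G x) ∂μ := by
        rw [← integral_sub i3 i5]
        refine integral_congr_ae ?_
        filter_upwards [ha] with x hx
        rw [hx, hWsub, s3_bp_sub]
      rw [h'] at h
      exact sub_eq_zero.1 h
    rw [h1, h2, h3]
    have e1 := pair_le μ hP2 hM2 T2 hT2 htP' htP _ heL G
    have e2 := pair_le μ hP2 hM2 T2 hT2 htP' htP _ hHt G
    calc ‖∫ x, bp (W x (T1 a x)) (T2 G x) ∂μ - ∫ x, bp (W x (b x) - v x) (T2 G x) ∂μ‖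
        ≤ ‖∫ x, bp (W x (T1 a x)) (T2 G x) ∂μ‖ + ‖∫ x, bp (W x (b x) - v x) (T2 G x) ∂μ‖ :=
          norm_sub_le _ _
      _ ≤ M2 * Be * (∫ x, ‖G x‖ ^ (t / (t - 1)) ∂μ) ^ ((t - 1) / t)
          + M2 * BH * (∫ x, ‖G x‖ ^ (t / (t - 1)) ∂μ) ^ ((t - 1) / t) := add_le_add e1 e2
      _ = M2 * (Be + BH) * (∫ x, ‖G x‖ ^ (t / (t - 1)) ∂μ) ^ ((t - 1) / t) := by ring
  · exact mul_le_mul_of_nonneg_left (add_le_add step2 le_rfl) (by linarith)

end Pool.Agent.Lib.QR
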