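import Pool.Agent.Lib.MP_ba1c0b_an3.C2h
import Pool.Agent.Lib.MP_ba1c0b_an3.S2
import Pool.Agent.Lib.MP_ba1c0b_an3.S2c
import Pool.Agent.Lib.MP_ba1c0b_an3.S3
import Pool.Agent.Lib.MP_ba1c0b_an.H1g
import Pool.Agent.Lib.MP_ba1c0b_an.K9

/-!
S4 (third stage): the a priori estimate on the cube.
-/

set_option autoImplicit false

open MeasureTheory
open scoped ENNReal NNReal

namespace Pool.Agent.Lib.QR

/-- Bounded continuous functions of the derivative of a compactly supported smooth map. -/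
private theorem s4_bdd {n : ℕ} {W : Type*} [NormedAddCommGroup W] (g : E n → E n)
    (hg : ContDiff ℝ ((⊤ : ℕ∞) : WithTop ℕ∞) g) (hc : HasCompactSupport g)
    (Φ : (E n →L[ℝ] E n) → W) (hΦ : Continuous Φ) :
    Continuous (fun x => Φ (fderiv ℝ g x)) ∧ ∃ K : ℝ, ∀ x, ‖Φ (fderiv ℝ g x)‖ ≤ K := by
  have h1 : Continuous (fderiv ℝ g) := hg.continuous_fderiv (by simp)
  have h2 : HasCompactSupport (fderiv ℝ g) := hc.fderiv (𝕜 := ℝ)
  refine ⟨hΦ.comp h1, ?_⟩
  obtain ⟨K, hK⟩ := h2.isCompact.exists_bound_of_continuousOn (f := fun x => Φ (fderiv ℝ g x))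
    (hΦ.comp h1).continuousOn
  refine ⟨max K ‖Φ 0‖, fun x => ?_⟩
  by_cases hx : x ∈ tsupport (fderiv ℝ g)
  · exact (hK x hx).trans (le_max_left _ _)
  · rw [image_eq_zero_of_notMem_tsupport hx]
    exact le_max_right _ _

private theorem s4_bp_comm {n : ℕ} (x y : V n) : bp x y = bp y x := by
  unfold bp
  exact Finset.sum_congr rfl fun i _ => mul_comm _ _

private theorem s4_row_cont {n : ℕ} (i : Fin n) : Continuous fun A : E n →L[ℝ] E n => row A i := by
  apply continuous_pi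
  intro j
  change Continuous fun A : E n →L[ℝ] E n => A (EuclideanSpace.single j 1) i
  fun_prop

private theorem s4_an_cont {n : ℕ} : Continuous fun p : (Fin n → ℝ) × V n => an p.1 p.2 := by
  change Continuous fun p : (Fin n → ℝ) × V n => WithLp.toLp 2 (fun S : Finset (Fin n) =>
    ∑ j ∈ Sᶜ, (p.1 j : ℂ) * (sg j S : ℂ) * p.2 (insert j S))
  apply (PiLp.continuous_toLp 2 _).comp
  apply continuous_pi
  intro S
  apply continuous_finsetSum
  intro j _
  fun_prop

private theorem s4_anl_cont {n : ℕ} (I : List (Fin n)) (x : V n) :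
    Continuous fun A : E n →L[ℝ] E n => anl (I.map (row A)) x := by
  induction I with
  | nil => exact continuous_const
  | cons i I ih =>
    change Continuous fun A : E n →L[ℝ] E n => an (row A i) (anl (I.map (row A)) x)
    exact Continuous.comp (g := fun p : (Fin n → ℝ) × V n => an p.1 p.2)
      (f := fun A : E n →L[ℝ] E n => (row A i, anl (I.map (row A)) x)) s4_an_cont
      ((s4_row_cont i).prodMk ih)

private theorem s4_anl_bl_cont {n : ℕ} (j : ℕ) (x : V n) :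
    Continuous fun A : E n →L[ℝ] E n => anl (bl j A).reverse x := by
  have h : ∀ A : E n →L[ℝ] E n,
      (bl j A).reverse = (((List.finRange n).take j).reverse).map (row A) := by
    intro A
    unfold bl
    rw [List.ofFn_eq_map, List.map_reverse, List.map_take]
  simp only [h]
  exact s4_anl_cont _ _

private theorem s4_anl_smul {n : ℕ} (L : List (Fin n → ℝ)) (c : ℂ) (x : V n) :
    anl L (c • x) = c • anl L x := by
  induction L with
  | nil => rfl
  | cons v L ih =>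
    change an v (anl L (c • x)) = c • an v (anl L x)
    rw [ih, map_smul]

/-- The a priori estimate in every dimension `n > j + k`. -/
private theorem s4_aux {n : ℕ} (j k m1 m2 : ℕ) (hj : 1 ≤ j) (hk : 1 ≤ k) (hm1 : 2 ≤ m1)
    (hm2 : 2 ≤ m2) (hjn : j + k < n)
    (q K t : ℝ) (hq0 : 0 < q) (hK : 0 ≤ K) (hq : GoodQ (12 * m1) k m1 K q)
    (htq : t = q / (j + k + 1))
    (ht : (2 * m2 : ℝ) / (2 * m2 - 1) < t) (htP : t < 2 * m2)
    (g : E n → E n)
    (hg : ContDiff ℝ ((⊤ : ℕ∞) : WithTop ℕ∞) g) (hc : HasCompactSupport g)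
    (hs : tsupport g ⊆ cube n) :
    (∫ x in cube n, ‖fV (j + k) (fderiv ℝ g x)‖ ^ t) ^ (1 / t)
      ≤ 12 * m2 * (K * (∫ x in cube n, ‖fderiv ℝ g x‖ ^ q) ^ (1 / t)
        + (∫ x in cube n, ‖hH j k (fderiv ℝ g x)‖ ^ t) ^ (1 / t)) := by
  have hk' : (1 : ℝ) ≤ k := by exact_mod_cast hk
  have hk0 : (0 : ℝ) < k := by linarith
  have hm1' : (2 : ℝ) ≤ m1 := by exact_mod_cast hm1
  have hm2' : (2 : ℝ) ≤ m2 := by exact_mod_cast hm2
  have hP1 : (2 : ℝ) < 2 * m1 := by linarith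
  have hP2 : (2 : ℝ) < 2 * m2 := by linarith
  have f1 : Fact (1 ≤ ENNReal.ofReal (2 * (m1 : ℝ))) := ⟨by
    rw [← ENNReal.ofReal_one]
    exact ENNReal.ofReal_le_ofReal (by linarith)⟩
  have f2 : Fact (1 ≤ ENNReal.ofReal (2 * (m2 : ℝ))) := ⟨by
    rw [← ENNReal.ofReal_one]
    exact ENNReal.ofReal_le_ofReal (by linarith)⟩
  obtain ⟨lam, del, g1, g2, g3, g4, g5⟩ := hq
  obtain ⟨T1, hT1, hT1s, hT1u, hT1v⟩ := exists_T_nk n k m1 (by omega) (12 * m1) (by linarith)
    (fun S a => proj_dimfree k m1 hm1 S a) (2 * (m1 : ℝ)) rfl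
  obtain ⟨T2, hT2, -, hT2u, hT2v⟩ := exists_T_nk n (j + k) m2 (by omega) (12 * m2) (by linarith)
    (fun S a => proj_dimfree (j + k) m2 hm2 S a) (2 * (m2 : ℝ)) rfl
  -- exponents
  have hst : q / k / (1 + 1 / (k : ℝ)) = q / (k + 1) := by
    field_simp
  have hε : (0 : ℝ) < 1 / k := by positivity
  have hes : (1 + 1 / (k : ℝ)) / (q / k) = (k + 1 : ℝ) / q := by
    field_simp
  have hPc1 : (1 : ℝ) < 2 * (m1 : ℝ) / (2 * m1 - 1) := by
    rw [one_lt_div (by linarith)]; linarith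
  have hPc2 : (1 : ℝ) < 2 * (m2 : ℝ) / (2 * m2 - 1) := by
    rw [one_lt_div (by linarith)]; linarith
  have ht1P' : 2 * (m1 : ℝ) / (2 * m1 - 1) < q / (k + 1) := by
    rw [← hst]
    have h1 : 1 + 1 / (k : ℝ) < q / k * (2 * m1 - 1) / (2 * m1) := by linarith
    rw [div_lt_div_iff₀ (by linarith) (by linarith)]
    rw [lt_div_iff₀ (by linarith)] at h1
    linarith
  have ht11 : 1 < q / (k + 1 : ℝ) := by linarith
  have hts : q / (k + 1) < q / k := div_lt_div_of_pos_left hq0 hk0 (by linarith)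
  have hsP : q / k < 2 * m1 := by
    have : q / k / (2 * m1) < 1 := by linarith
    rwa [div_lt_one (by linarith)] at this
  have ht0 : 0 < t := by linarith
  -- the functions
  obtain ⟨cD, KD, bD⟩ := s4_bdd g hg hc (fun X => X) continuous_id
  obtain ⟨cw, Kw, bw⟩ := s4_bdd g hg hc (fun X => fW j k X) (continuous_fW j k)
  obtain ⟨cv, Kv, bv⟩ := s4_bdd g hg hc (fun X => fV (j + k) X) (continuous_fV (j + k))
  obtain ⟨cH, KH, bH⟩ := s4_bdd g hg hc (fun X => hH j k X) (continuous_hH j k)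
  have ca' : Continuous (fun X : E n →L[ℝ] E n =>
      ((‖fW j k X‖ ^ ((1 : ℝ) / k) : ℝ) : ℂ) • fW j k X) := by
    have h3 : Continuous fun X : E n →L[ℝ] E n => (‖fW j k X‖ ^ ((1 : ℝ) / k) : ℝ) :=
      (continuous_fW j k).norm.rpow_const fun _ => Or.inr (by positivity)
    exact (Complex.continuous_ofReal.comp h3).smul (continuous_fW j k)
  obtain ⟨ca, Ka, ba⟩ := s4_bdd g hg hc
    (fun X => ((‖fW j k X‖ ^ ((1 : ℝ) / k) : ℝ) : ℂ) • fW j k X) ca'
  have mD : ∀ p : ℝ≥0∞, MemLp (fun x => fderiv ℝ g (rep n x)) p (μT n) := fun p =>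
    MemLp.of_bound (cD.measurable.comp measurable_rep).aestronglyMeasurable KD
      (Filter.Eventually.of_forall fun x => bD _)
  have mw : ∀ p : ℝ≥0∞, MemLp (fun x => fW j k (fderiv ℝ g (rep n x))) p (μT n) := fun p =>
    MemLp.of_bound (cw.measurable.comp measurable_rep).aestronglyMeasurable Kw
      (Filter.Eventually.of_forall fun x => bw _)
  have mv : ∀ p : ℝ≥0∞, MemLp (fun x => fV (j + k) (fderiv ℝ g (rep n x))) p (μT n) := fun p =>
    MemLp.of_bound (cv.measurable.comp measurable_rep).aestronglyMeasurable Kv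
      (Filter.Eventually.of_forall fun x => bv _)
  have ma : ∀ p : ℝ≥0∞, MemLp (fun x => ((‖fW j k (fderiv ℝ g (rep n x))‖ ^ ((1 : ℝ) / k) : ℝ) : ℂ)
      • fW j k (fderiv ℝ g (rep n x))) p (μT n) := fun p =>
    MemLp.of_bound (ca.measurable.comp measurable_rep).aestronglyMeasurable Ka
      (Filter.Eventually.of_forall fun x => ba _)
  -- measurability of the product
  have hWm : ∀ f : UnitAddTorus (Fin n) → V n, AEStronglyMeasurable f (μT n) →
      AEStronglyMeasurable (fun x => crl (bl j (fderiv ℝ g (rep n x))) (f x)) (μT n) := by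
    intro f hf
    exact (continuous_crl_bl j).comp_aestronglyMeasurable ((mD 1).aestronglyMeasurable.prodMk hf)
  have hWsub : ∀ (x : UnitAddTorus (Fin n)) (y z : V n),
      crl (bl j (fderiv ℝ g (rep n x))) (y - z)
        = crl (bl j (fderiv ℝ g (rep n x))) y - crl (bl j (fderiv ℝ g (rep n x))) z := by
    intro x y z
    have h1 := crl_bl_add j (fderiv ℝ g (rep n x)) y (((-1 : ℂ)) • z)
    rw [crl_bl_smul, neg_one_smul, neg_one_smul, ← sub_eq_add_neg, ← sub_eq_add_neg] at h1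
    exact h1
  -- closedness
  have hcl := hT1u (q / k) _ (by linarith) (mw _) fun ξ y =>
    torus_closed_fW j k hk hjn.le g hg hc hs ξ y
  have hinner : ∀ G : Lp (V n) (ENNReal.ofReal (2 * (m1 : ℝ))) (μT n),
      ‖∫ x, bp (((‖fW j k (fderiv ℝ g (rep n x))‖ ^ ((1 : ℝ) / k) : ℝ) : ℂ)
          • fW j k (fderiv ℝ g (rep n x))) (T1 G x) ∂(μT n)‖
        ≤ K * (∫ x, ‖fW j k (fderiv ℝ g (rep n x))‖ ^ (q / k) ∂(μT n)) ^ ((k + 1 : ℝ) / q)
          * (∫ x, ‖G x‖ ^ (q / (k + 1) / (q / (k + 1) - 1)) ∂(μT n))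
            ^ ((q / (k + 1) - 1) / (q / (k + 1))) := by
    intro G
    have h1 := stab_gen (μT n) (P := 2 * (m1 : ℝ)) (M := 12 * m1) hP1 (by linarith) T1 hT1
      (s := q / k) (ε := 1 / (k : ℝ)) hε g1 g2 g3 g4
      (fun x => fW j k (fderiv ℝ g (rep n x))) (mw _) hcl G
    rw [hst, hes] at h1
    refine h1.trans ?_
    exact mul_le_mul_of_nonneg_right (mul_le_mul_of_nonneg_right g5
      (Real.rpow_nonneg (integral_nonneg fun x => Real.rpow_nonneg (norm_nonneg _) _) _))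
      (Real.rpow_nonneg (integral_nonneg fun x => Real.rpow_nonneg (norm_nonneg _) _) _)
  obtain ⟨a, ha⟩ : ∃ a : Lp (V n) (ENNReal.ofReal (2 * (m1 : ℝ))) (μT n),
      a = (ma (ENNReal.ofReal (2 * (m1 : ℝ)))).toLp _ := ⟨_, rfl⟩
  have hac : (a : UnitAddTorus (Fin n) → V n) =ᵐ[μT n]
      fun x => ((‖fW j k (fderiv ℝ g (rep n x))‖ ^ ((1 : ℝ) / k) : ℝ) : ℂ)
        • fW j k (fderiv ℝ g (rep n x)) := by
    rw [ha]
    exact MemLp.coeFn_toLp _
  -- the product with a closed form is closed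
  have hcm : MemLp (fun x => a x - T1 a x) (ENNReal.ofReal (2 * (m1 : ℝ))) (μT n) :=
    (Lp.memLp a).sub (Lp.memLp (T1 a))
  have hWc : MemLp (fun x => crl (bl j (fderiv ℝ g (rep n x))) (a x - T1 a x))
      (ENNReal.ofReal (2 * (m1 : ℝ))) (μT n) := by
    refine MemLp.of_le_mul (c := KD ^ j) hcm (hWm _ hcm.aestronglyMeasurable) ?_
    refine Filter.Eventually.of_forall fun x => ?_
    refine (norm_crl_bl_le j (by omega) _ _).trans ?_
    exact mul_le_mul_of_nonneg_right (pow_le_pow_left₀ (norm_nonneg _) (bD _) _) (norm_nonneg _)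
  have hPP : 2 * (m2 : ℝ) / (2 * m2 - 1) ≤ 2 * m1 := by
    rw [div_le_iff₀ (by linarith)]
    nlinarith
  have hwedge : ∀ G : Lp (V n) (ENNReal.ofReal (2 * (m2 : ℝ))) (μT n),
      ∫ x, bp (crl (bl j (fderiv ℝ g (rep n x))) (a x - T1 a x)) (T2 G x) ∂(μT n) = 0 := by
    refine hT2u (2 * (m1 : ℝ)) _ hPP hWc fun ξ y => ?_
    have mF : MemLp (fun x => anl (bl j (fderiv ℝ g (rep n x))).reverse
        (UnitAddTorus.mFourier ξ x • Pj (j + k) ξ y)) (ENNReal.ofReal (2 * (m1 : ℝ))) (μT n) := by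
      obtain ⟨cF, KF, bF⟩ := s4_bdd g hg hc (fun X => anl (bl j X).reverse (Pj (j + k) ξ y))
        (s4_anl_bl_cont j _)
      have e1 : (fun x => anl (bl j (fderiv ℝ g (rep n x))).reverse
          (UnitAddTorus.mFourier ξ x • Pj (j + k) ξ y))
          = fun x => UnitAddTorus.mFourier ξ x
            • anl (bl j (fderiv ℝ g (rep n x))).reverse (Pj (j + k) ξ y) := by
        funext x
        rw [s4_anl_smul]
      rw [e1]
      refine MemLp.of_bound (C := KF) ?_ (Filter.Eventually.of_forall fun x => ?_)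
      · exact (UnitAddTorus.mFourier ξ).continuous.aestronglyMeasurable.smul
          (cF.measurable.comp measurable_rep).aestronglyMeasurable
      · rw [norm_smul]
        have h3 : ‖UnitAddTorus.mFourier ξ x‖ ≤ 1 := by
          have := (UnitAddTorus.mFourier ξ).norm_coe_le_norm x
          rw [UnitAddTorus.mFourier_norm] at this
          exact this
        have h4 := bF (rep n x)
        calc ‖UnitAddTorus.mFourier ξ x‖
              * ‖anl (bl j (fderiv ℝ g (rep n x))).reverse (Pj (j + k) ξ y)‖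
            ≤ 1 * ‖anl (bl j (fderiv ℝ g (rep n x))).reverse (Pj (j + k) ξ y)‖ :=
              mul_le_mul_of_nonneg_right h3 (norm_nonneg _)
          _ ≤ KF := by rw [one_mul]; exact h4
    have h1 := hT1v (2 * (m1 : ℝ)) _ (by
        rw [div_le_iff₀ (by linarith)]
        nlinarith) mF
      (fun ξ' y' => contraction_coclosed j k hj hjn.le g hg hc hs ξ ξ' y y') a
    rw [← h1]
    refine integral_congr_ae (Filter.Eventually.of_forall fun x => ?_)
    simp only
    rw [bp_crl_reverse, s4_bp_comm]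
  have key := apriori3 (μT n) (P1 := 2 * (m1 : ℝ)) (P2 := 2 * (m2 : ℝ)) (M2 := 12 * m2)
    hP1 hP2 (by linarith) T1 T2 hT2 hT1s (q := q) (K := K) (t1 := q / (k + 1)) (t := t)
    (j := j) (k := k) hk hq0 hK rfl htq ht11 (by linarith) ht htP
    (fun x => fW j k (fderiv ℝ g (rep n x))) (fun x => fV (j + k) (fderiv ℝ g (rep n x)))
    (fun x => ‖fderiv ℝ g (rep n x)‖) (fun x => crl (bl j (fderiv ℝ g (rep n x))))
    (mw _) (mv _) (mD _).norm (fun x => norm_nonneg _) hWm hWsub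
    (fun x y => norm_crl_bl_le j (by omega) _ _)
    (fun x => norm_fW_le j k hjn.le _) hinner
    (hT2v t _ ht.le (mv _) fun ξ y => torus_coclosed (j + k) hjn g hg hc hs ξ y) a hac hwedge
  have t1 : ∫ x in cube n, ‖fV (j + k) (fderiv ℝ g x)‖ ^ t
      = ∫ x, ‖fV (j + k) (fderiv ℝ g (rep n x))‖ ^ t ∂(μT n) := by
    rw [← map_rep, integral_map measurable_rep.aemeasurable]
    exact (cv.norm.rpow_const fun _ => Or.inr ht0.le).aestronglyMeasurable
  have t2 : ∫ x in cube n, ‖fderiv ℝ g x‖ ^ q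
      = ∫ x, ‖fderiv ℝ g (rep n x)‖ ^ q ∂(μT n) := by
    rw [← map_rep, integral_map measurable_rep.aemeasurable]
    exact (cD.norm.rpow_const fun _ => Or.inr hq0.le).aestronglyMeasurable
  have t3 : ∫ x in cube n, ‖hH j k (fderiv ℝ g x)‖ ^ t
      = ∫ x, ‖hH j k (fderiv ℝ g (rep n x))‖ ^ t ∂(μT n) := by
    rw [← map_rep, integral_map measurable_rep.aemeasurable]
    exact (cH.norm.rpow_const fun _ => Or.inr ht0.le).aestronglyMeasurable
  rw [t1, t2, t3]
  exact key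

/-- The a priori estimate on the cube. -/
theorem cube3 (j k m1 m2 : ℕ) (hj : 1 ≤ j) (hk : 1 ≤ k) (hm1 : 2 ≤ m1) (hm2 : 2 ≤ m2)
    (q K : ℝ) (hq0 : 0 < q) (hK : 0 ≤ K) (hq : GoodQ (12 * m1) k m1 K q)
    (ht : (2 * m2 : ℝ) / (2 * m2 - 1) < q / (j + k + 1)) (htP : q / (j + k + 1) < 2 * m2)
    (g : E (2 * (j + k) + 1) → E (2 * (j + k) + 1))
    (hg : ContDiff ℝ ((⊤ : ℕ∞) : WithTop ℕ∞) g) (hc : HasCompactSupport g)
    (hs : tsupport g ⊆ cube (2 * (j + k) + 1)) :
    (∫ x in cube (2 * (j + k) + 1), ‖fV (j + k) (fderiv ℝ g x)‖ ^ (q / (j + k + 1)))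
        ^ (1 / (q / (j + k + 1)))
      ≤ 12 * m2 * (K * (∫ x in cube (2 * (j + k) + 1), ‖fderiv ℝ g x‖ ^ q)
          ^ (1 / (q / (j + k + 1)))
        + (∫ x in cube (2 * (j + k) + 1), ‖hH j k (fderiv ℝ g x)‖ ^ (q / (j + k + 1)))
          ^ (1 / (q / (j + k + 1)))) :=
  s4_aux j k m1 m2 hj hk hm1 hm2 (by omega) q K _ hq0 hK hq rfl ht htP g hg hc hs

end Pool.Agent.Lib.QR
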