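import Pool.Agent.Lib.MP_ba1c0b_an3.S4
import Pool.Agent.Lib.MP_ba1c0b_an3.S1e

/-!
S5 (third stage): coercivity.
-/

set_option autoImplicit false

open MeasureTheory
open scoped ENNReal NNReal

namespace Pool.Agent.Lib.QR

private theorem s5_w {w x t : ℝ} (hw : 0 < w) (hw1 : w ≤ 1) (hx : 0 ≤ x) (ht2 : t ≤ 2) :
    w * (x / w) ^ t ≤ w⁻¹ * x ^ t := by
  rw [Real.div_rpow hx hw.le]
  have h1 : w ^ (2 : ℝ) ≤ w ^ t := Real.rpow_le_rpow_of_exponent_ge hw hw1 ht2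
  rw [Real.rpow_two] at h1
  have h2 : 0 < w ^ t := Real.rpow_pos_of_pos hw t
  have h3 : 0 ≤ x ^ t := Real.rpow_nonneg hx t
  rw [← mul_div_assoc, div_le_iff₀ h2]
  have h4 : w⁻¹ * x ^ t * w ^ 2 ≤ w⁻¹ * x ^ t * w ^ t :=
    mul_le_mul_of_nonneg_left h1 (by positivity)
  refine le_trans (le_of_eq ?_) h4
  field_simp

private theorem s5_conv {θ x y t : ℝ} (hθ : 0 < θ) (hθ1 : θ < 1) (hx : 0 ≤ x) (hy : 0 ≤ y)
    (ht1 : 1 ≤ t) (ht2 : t ≤ 2) :
    (x + y) ^ t ≤ (1 - θ)⁻¹ * x ^ t + θ⁻¹ * y ^ t := by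
  have hθ' : 0 < 1 - θ := by linarith
  have h1 := (convexOn_rpow ht1).2 (Set.mem_Ici.mpr (div_nonneg hx hθ'.le))
    (Set.mem_Ici.mpr (div_nonneg hy hθ.le)) hθ'.le hθ.le (sub_add_cancel 1 θ)
  simp only [smul_eq_mul] at h1
  have h2 : (1 - θ) * (x / (1 - θ)) + θ * (y / θ) = x + y := by
    field_simp
  rw [h2] at h1
  have h3 := s5_w hθ' (by linarith) hx ht2
  have h4 := s5_w hθ (by linarith) hy ht2
  linarith

/-- The integral of the power of the norm as a lower integral. -/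
private theorem s5_lint {n : ℕ} {W : Type*} [NormedAddCommGroup W] {q : ℝ} (hq : 0 < q)
    (μ : Measure (E n)) (f : E n → W) (hf : MemLp f (ENNReal.ofReal q) μ) :
    Integrable (fun x => ‖f x‖ ^ q) μ ∧
      ENNReal.ofReal (∫ x, ‖f x‖ ^ q ∂μ) = ∫⁻ x, ‖f x‖ₑ ^ q ∂μ := by
  have h1 : Integrable (fun x => ‖f x‖ ^ q) μ := by
    have h := hf.integrable_norm_rpow (by simpa using hq) ENNReal.ofReal_ne_top
    rwa [ENNReal.toReal_ofReal hq.le] at h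
  refine ⟨h1, ?_⟩
  rw [ofReal_integral_eq_lintegral_ofReal h1
    (Filter.Eventually.of_forall fun x => Real.rpow_nonneg (norm_nonneg _) _)]
  refine lintegral_congr fun x => ?_
  rw [← ENNReal.ofReal_rpow_of_nonneg (norm_nonneg _) hq.le, ofReal_norm]

/-- Bounded continuous functions of the derivative of a compactly supported smooth map. -/
private theorem s5_bdd {n : ℕ} {W : Type*} [NormedAddCommGroup W] (g : E n → E n)
    (hg : ContDiff ℝ ((⊤ : ℕ∞) : WithTop ℕ∞) g) (hc : HasCompactSupport g)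
    (Φ : (E n →L[ℝ] E n) → W) (hΦ : Continuous Φ) :
    Continuous (fun x => Φ (fderiv ℝ g x)) ∧ ∃ K : ℝ, ∀ x, ‖Φ (fderiv ℝ g x)‖ ≤ K := by
  have h1 : Continuous (fderiv ℝ g) := hg.continuous_fderiv (by simp)
  have h2 : HasCompactSupport (fderiv ℝ g) := hc.fderiv (𝕜 := ℝ)
  refine ⟨hΦ.comp h1, ?_⟩
  obtain ⟨K, hK⟩ := h2.isCompact.exists_bound_of_continuousOn (f := fun x => Φ (fderiv ℝ g x))
    (hΦ.comp h1).continuousOn
  refine ⟨max K ‖Φ 0‖, fun x => ?_⟩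
  by_cases hx : x ∈ tsupport (fderiv ℝ g)
  · exact (hK x hx).trans (le_max_left _ _)
  · rw [image_eq_zero_of_notMem_tsupport hx]
    exact le_max_right _ _

/-- pure algebra: the absorption -/
private theorem s5_alg {a b w I h c d M κ η r K3 K4 K5 : ℝ} (ha : 0 ≤ a) (hb : 0 ≤ b)
    (hc : 0 ≤ c) (hd : 0 ≤ d) (hκ0 : 0 ≤ κ) (hκ1 : κ < 1) (hη0 : 0 ≤ η) (hη1 : η ≤ 1)
    (hr : c ^ 3 * κ ≤ r) (hr1 : r < 1) (hη : η * (2 * (5 + c ^ 2 * d * M ^ 2)) ≤ 1 - r)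
    (hK5 : 0 ≤ K5)
    (e4 : (1 - η) ^ 2 * a ≤ c * w + d * K4 * b)
    (e5 : I ≤ c * ((1 + η) ^ 2 * a) + d * K5 * b)
    (e3 : h ≤ c * (η * a) + d * K3 * b)
    (e1 : w ≤ c * (κ * I) + d * (M ^ 2 * h)) :
    a ≤ 2 / (1 - r) * (c ^ 2 * d * K5 + c * d ^ 2 * M ^ 2 * K3 + d * K4) * b := by
  have hr0 : 0 < 1 - r := by linarith
  have h1 : c * w ≤ c * (c * (κ * I) + d * (M ^ 2 * h)) := mul_le_mul_of_nonneg_left e1 hc
  have h2 : c ^ 2 * κ * I ≤ c ^ 2 * κ * (c * ((1 + η) ^ 2 * a) + d * K5 * b) :=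
    mul_le_mul_of_nonneg_left e5 (by positivity)
  have h3 : c * d * M ^ 2 * h ≤ c * d * M ^ 2 * (c * (η * a) + d * K3 * b) :=
    mul_le_mul_of_nonneg_left e3 (by positivity)
  have h4 : (1 - η) ^ 2 * a ≤ (c ^ 3 * κ) * ((1 + η) ^ 2 * a) + c ^ 2 * d * M ^ 2 * η * a
      + (c ^ 2 * d * κ * K5 + c * d ^ 2 * M ^ 2 * K3 + d * K4) * b := by
    nlinarith [h1, h2, h3, e4]
  have h5 : (c ^ 3 * κ) * ((1 + η) ^ 2 * a) ≤ r * ((1 + η) ^ 2 * a) :=
    mul_le_mul_of_nonneg_right hr (by positivity)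
  have h6 : c ^ 2 * d * κ * K5 ≤ c ^ 2 * d * K5 := by
    have : c ^ 2 * d * K5 * κ ≤ c ^ 2 * d * K5 * 1 :=
      mul_le_mul_of_nonneg_left hκ1.le (by positivity)
    linarith
  have h7 := mul_le_mul_of_nonneg_right h6 hb
  have h8 : (1 + η) ^ 2 ≤ 1 + 3 * η := by nlinarith
  have h8' : 1 - 2 * η ≤ (1 - η) ^ 2 := by nlinarith
  have h9 : r * ((1 + η) ^ 2 * a) ≤ r * ((1 + 3 * η) * a) ∨ r < 0 := by
    rcases le_or_gt 0 r with h | h
    · left
      exact mul_le_mul_of_nonneg_left (mul_le_mul_of_nonneg_right h8 ha) h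
    · right; exact h
  have hr00 : 0 ≤ r := le_trans (by positivity) hr
  rcases h9 with h9 | h9
  · have h10 : r * (3 * η * a) ≤ 3 * η * a := by
      have : 0 ≤ 3 * η * a := by positivity
      nlinarith
    have h11 : (1 - 2 * η) * a ≤ (1 - η) ^ 2 * a := mul_le_mul_of_nonneg_right h8' ha
    have h12 := mul_le_mul_of_nonneg_right hη ha
    have h13 : (1 - r) / 2 * a ≤ (c ^ 2 * d * K5 + c * d ^ 2 * M ^ 2 * K3 + d * K4) * b := by
      nlinarith [h4, h5, h7, h9, h10, h11, h12]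
    have h14 : a = 2 / (1 - r) * ((1 - r) / 2 * a) := by
      field_simp
    rw [h14, mul_assoc]
    refine mul_le_mul_of_nonneg_left ?_ (by positivity)
    exact h13
  · linarith

private theorem s5_pow2 {C t : ℝ} (hC : 0 ≤ C) (ht0 : 0 ≤ t) (ht2 : t ≤ 2) :
    C ^ t ≤ (1 + C) ^ 2 := by
  have h1 : C ^ t ≤ (1 + C) ^ t := Real.rpow_le_rpow hC (by linarith) ht0
  have h2 : (1 + C) ^ t ≤ (1 + C) ^ (2 : ℝ) :=
    Real.rpow_le_rpow_of_exponent_le (by linarith) ht2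
  rw [Real.rpow_two] at h2
  exact h1.trans h2

/-- PROOF.  Put `t = q/(j+k+1) ∈ (1, 2]`, `l = j+k`, `a = ∫ ‖A‖^q`, `b = ∫ ‖B‖^q`, `B = Dg - A`,
`I = ∫ ‖Dg‖^q`, `w = ∫ ‖fV l Dg‖^t`, `h = ∫ ‖hH j k Dg‖^t`.  For `x, y ≥ 0`, `0 < θ < 1`:
`(x + y)^t ≤ (1-θ)^(-1) x^t + θ^(-1) y^t` (convexity, `t ≤ 2`).  With `est4`, `est5`, `est3` (constant
`η`): `(1-η)^2 a ≤ (1-θ)^(-1) w + θ^(-1) C b`, `I ≤ (1-θ)^(-1) (1+η)^2 a + θ^(-1) C b`,
`h ≤ (2η) a + C b` (if `2 η ≤ 1`), `cube3`: `w ≤ (1-θ)^(-1) κ I + θ^(-1) (12 m2)^2 h` (`κ^t ≤ κ`).  So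
`((1-η)^2 - (1-θ)^(-3) κ (1+η)^2 - (1-θ)^(-1) θ^(-1) (12 m2)^2 2 η) a ≤ C' b`; choose `θ` with
`(1-θ)^(-3) κ < 1`, then `η` small. -/
theorem coercive3 (j k m1 m2 : ℕ) (hj : 1 ≤ j) (hk : 1 ≤ k) (hm1 : 2 ≤ m1) (hm2 : 2 ≤ m2)
    (κ : ℝ) (hκ0 : 0 ≤ κ) (hκ1 : κ < 1) :
    ∃ C : ℝ≥0, ∀ q : ℝ, 0 < q → q ≤ 2 * (j + k) + 1 →
      GoodQ (12 * m1) k m1 (κ / (12 * m2)) q →
      (2 * m2 : ℝ) / (2 * m2 - 1) < q / (j + k + 1) →
      ∀ (g : E (2 * (j + k) + 1) → E (2 * (j + k) + 1))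
        (A : E (2 * (j + k) + 1) → E (2 * (j + k) + 1) →L[ℝ] E (2 * (j + k) + 1)),
        ContDiff ℝ ((⊤ : ℕ∞) : WithTop ℕ∞) g → HasCompactSupport g →
        tsupport g ⊆ cube (2 * (j + k) + 1) →
        MemLp A (ENNReal.ofReal q) volume → (∀ᵐ x, Conf (A x)) →
        (∀ x ∉ cube (2 * (j + k) + 1), A x = 0) →
        ∫⁻ x, ‖A x‖ₑ ^ q ≤ C * ∫⁻ x, ‖fderiv ℝ g x - A x‖ₑ ^ q := by
  have hm2' : (2 : ℝ) ≤ m2 := by exact_mod_cast hm2
  obtain ⟨M, hM⟩ : ∃ M : ℝ, M = 12 * m2 := ⟨_, rfl⟩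
  have hM1 : 1 ≤ M := by rw [hM]; linarith
  have hM0 : 0 < M := by linarith
  obtain ⟨θ, hθ⟩ : ∃ θ : ℝ, θ = (1 - κ) / 6 := ⟨_, rfl⟩
  have hθ0 : 0 < θ := by rw [hθ]; linarith
  have hθ1 : θ < 1 := by rw [hθ]; linarith
  obtain ⟨c, hc⟩ : ∃ c : ℝ, c = (1 - θ)⁻¹ := ⟨_, rfl⟩
  obtain ⟨d, hd⟩ : ∃ d : ℝ, d = θ⁻¹ := ⟨_, rfl⟩
  have hc0 : 0 < c := by rw [hc]; exact inv_pos.mpr (by linarith)
  have hd0 : 0 < d := by rw [hd]; exact inv_pos.mpr hθ0
  obtain ⟨r, hr⟩ : ∃ r : ℝ, r = 2 * κ / (1 + κ) := ⟨_, rfl⟩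
  have hr1 : r < 1 := by
    rw [hr, div_lt_one (by linarith)]
    linarith
  have hcr : c ^ 3 * κ ≤ r := by
    have h1 : (1 + κ) / 2 ≤ (1 - θ) ^ 3 := by
      have h2 : 0 ≤ θ ^ 2 * (3 - θ) := by
        have : 0 ≤ 3 - θ := by linarith
        positivity
      have h3 : (1 - θ) ^ 3 = 1 - 3 * θ + θ ^ 2 * (3 - θ) := by ring
      have h4 : 1 - 3 * θ = (1 + κ) / 2 := by rw [hθ]; ring
      linarith
    have h2 : 0 < (1 + κ) / 2 := by linarith
    rw [hc, inv_pow, hr]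
    calc ((1 - θ) ^ 3)⁻¹ * κ ≤ ((1 + κ) / 2)⁻¹ * κ :=
          mul_le_mul_of_nonneg_right (inv_anti₀ h2 h1) hκ0
      _ = 2 * κ / (1 + κ) := by
          have : 1 + κ ≠ 0 := by linarith
          field_simp
  obtain ⟨η, hη⟩ : ∃ η : ℝ, η = (1 - r) / (2 * (5 + c ^ 2 * d * M ^ 2)) := ⟨_, rfl⟩
  have hden : 0 < 2 * (5 + c ^ 2 * d * M ^ 2) := by positivity
  have hr00 : 0 ≤ r := le_trans (by positivity) hcr
  have hη0 : 0 < η := by rw [hη]; exact div_pos (by linarith) hden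
  have hη1 : η ≤ 1 := by
    rw [hη, div_le_one hden]
    have : 0 ≤ c ^ 2 * d * M ^ 2 := by positivity
    linarith
  have hηr : η * (2 * (5 + c ^ 2 * d * M ^ 2)) ≤ 1 - r := by
    rw [hη, div_mul_cancel₀ _ hden.ne']
  obtain ⟨C3, hC3, e3⟩ := est3 (n := 2 * (j + k) + 1) j k hk rfl η hη0
  obtain ⟨C4, hC4, e4⟩ := est4 (n := 2 * (j + k) + 1) (j + k) (by omega) rfl η hη0
  obtain ⟨C5, hC5, e5⟩ := est5 (n := 2 * (j + k) + 1) (j + k) η hη0
  obtain ⟨R, hR⟩ : ∃ R : ℝ, R = 2 / (1 - r) * (c ^ 2 * d * (1 + C5) ^ 2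
    + c * d ^ 2 * M ^ 2 * (1 + C3) ^ 2 + d * (1 + C4) ^ 2) := ⟨_, rfl⟩
  have hR0 : 0 ≤ R := by
    rw [hR]
    have : 0 < 1 - r := by linarith
    positivity
  refine ⟨Real.toNNReal R, ?_⟩
  intro q hq0 hqn hgood hqt g A hg hgc hgs hA hAc hA0
  have hjr : (1 : ℝ) ≤ j := by exact_mod_cast hj
  have hkr : (1 : ℝ) ≤ k := by exact_mod_cast hk
  obtain ⟨t, ht⟩ : ∃ t : ℝ, t = q / (j + k + 1) := ⟨_, rfl⟩
  have ht1 : 1 < t := by
    have h1 : (1 : ℝ) < (2 * m2 : ℝ) / (2 * m2 - 1) := by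
      rw [one_lt_div (by linarith)]; linarith
    rw [ht]
    exact h1.trans hqt
  have ht2 : t ≤ 2 := by
    rw [ht, div_le_iff₀ (by linarith)]
    linarith
  have ht0 : 0 < t := by linarith
  have htq : ((j : ℝ) + k + 1) * t = q := by
    rw [ht]
    field_simp
  have hK0 : 0 ≤ κ / (12 * m2) := by positivity
  have key := cube3 j k m1 m2 hj hk hm1 hm2 q (κ / (12 * m2)) hq0 hK0 hgood hqt
    (by rw [← ht]; linarith) g hg hgc hgs
  rw [← ht, ← hM] at key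
  have hpow : ∀ x : ℝ, 0 ≤ x → (x ^ (j + k + 1)) ^ t = x ^ q := by
    intro x hx
    rw [← Real.rpow_natCast, ← Real.rpow_mul hx]
    congr 1
    push_cast
    exact htq
  -- pointwise bounds
  have p4 : ∀ᵐ x, (1 - η) ^ 2 * ‖A x‖ ^ q ≤ c * ‖fV (j + k) (fderiv ℝ g x)‖ ^ t
      + d * (1 + C4) ^ 2 * ‖fderiv ℝ g x - A x‖ ^ q := by
    filter_upwards [hAc] with x hx
    have h := e4 (A x) (fderiv ℝ g x - A x) hx
    rw [add_sub_cancel] at h
    have h' := Real.rpow_le_rpow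
      (mul_nonneg (by linarith) (pow_nonneg (norm_nonneg _) _)) h ht0.le
    rw [Real.mul_rpow (by linarith) (by positivity), hpow _ (norm_nonneg _)] at h'
    have h2 := s5_conv hθ0 hθ1 (norm_nonneg (fV (j + k) (fderiv ℝ g x)))
      (mul_nonneg hC4 (pow_nonneg (norm_nonneg (fderiv ℝ g x - A x)) (j + k + 1))) ht1.le ht2
    rw [← hc, ← hd, Real.mul_rpow hC4 (by positivity), hpow _ (norm_nonneg _)] at h2
    have h3 : (1 - η) ^ 2 ≤ (1 - η) ^ t := by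
      rcases eq_or_lt_of_le (by linarith : 0 ≤ 1 - η) with h0 | h0
      · rw [← h0, zero_pow two_ne_zero]
        exact Real.rpow_nonneg le_rfl _
      · rw [← Real.rpow_two]
        exact Real.rpow_le_rpow_of_exponent_ge h0 (by linarith) ht2
    have h4 := mul_le_mul_of_nonneg_right h3
      (Real.rpow_nonneg (norm_nonneg (A x)) q)
    have h5 : d * (C4 ^ t * ‖fderiv ℝ g x - A x‖ ^ q)
        ≤ d * (1 + C4) ^ 2 * ‖fderiv ℝ g x - A x‖ ^ q := by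
      rw [mul_assoc]
      refine mul_le_mul_of_nonneg_left ?_ hd0.le
      exact mul_le_mul_of_nonneg_right (s5_pow2 hC4 ht0.le ht2)
        (Real.rpow_nonneg (norm_nonneg _) _)
    linarith
  have p5 : ∀ᵐ x, ‖fderiv ℝ g x‖ ^ q ≤ c * ((1 + η) ^ 2 * ‖A x‖ ^ q)
      + d * (1 + C5) ^ 2 * ‖fderiv ℝ g x - A x‖ ^ q := by
    refine Filter.Eventually.of_forall fun x => ?_
    have h := e5 (A x) (fderiv ℝ g x - A x)
    rw [add_sub_cancel] at h
    have h' := Real.rpow_le_rpow (pow_nonneg (norm_nonneg _) _) h ht0.le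
    rw [hpow _ (norm_nonneg _)] at h'
    have h2 := s5_conv hθ0 hθ1
      (mul_nonneg (by linarith : 0 ≤ 1 + η) (pow_nonneg (norm_nonneg (A x)) (j + k + 1)))
      (mul_nonneg hC5 (pow_nonneg (norm_nonneg (fderiv ℝ g x - A x)) (j + k + 1))) ht1.le ht2
    rw [← hc, ← hd, Real.mul_rpow hC5 (by positivity), hpow _ (norm_nonneg _),
      Real.mul_rpow (by linarith) (by positivity), hpow _ (norm_nonneg _)] at h2
    have h3 : (1 + η) ^ t ≤ (1 + η) ^ 2 := by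
      rw [← Real.rpow_two]
      exact Real.rpow_le_rpow_of_exponent_le (by linarith) ht2
    have h4 := mul_le_mul_of_nonneg_left (mul_le_mul_of_nonneg_right h3
      (Real.rpow_nonneg (norm_nonneg (A x)) q)) hc0.le
    have h5 : d * (C5 ^ t * ‖fderiv ℝ g x - A x‖ ^ q)
        ≤ d * (1 + C5) ^ 2 * ‖fderiv ℝ g x - A x‖ ^ q := by
      rw [mul_assoc]
      refine mul_le_mul_of_nonneg_left ?_ hd0.le
      exact mul_le_mul_of_nonneg_right (s5_pow2 hC5 ht0.le ht2)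
        (Real.rpow_nonneg (norm_nonneg _) _)
    linarith
  have p3 : ∀ᵐ x, ‖hH j k (fderiv ℝ g x)‖ ^ t ≤ c * (η * ‖A x‖ ^ q)
      + d * (1 + C3) ^ 2 * ‖fderiv ℝ g x - A x‖ ^ q := by
    filter_upwards [hAc] with x hx
    have h := e3 (A x) (fderiv ℝ g x - A x) hx
    rw [add_sub_cancel] at h
    have h' := Real.rpow_le_rpow (norm_nonneg _) h ht0.le
    have h2 := s5_conv hθ0 hθ1
      (mul_nonneg hη0.le (pow_nonneg (norm_nonneg (A x)) (j + k + 1)))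
      (mul_nonneg hC3 (pow_nonneg (norm_nonneg (fderiv ℝ g x - A x)) (j + k + 1))) ht1.le ht2
    rw [← hc, ← hd, Real.mul_rpow hC3 (by positivity), hpow _ (norm_nonneg _),
      Real.mul_rpow hη0.le (by positivity), hpow _ (norm_nonneg _)] at h2
    have h3 : η ^ t ≤ η := by
      calc η ^ t ≤ η ^ (1 : ℝ) := Real.rpow_le_rpow_of_exponent_ge hη0 hη1 ht1.le
        _ = η := Real.rpow_one _
    have h4 := mul_le_mul_of_nonneg_left (mul_le_mul_of_nonneg_right h3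
      (Real.rpow_nonneg (norm_nonneg (A x)) q)) hc0.le
    have h5 : d * (C3 ^ t * ‖fderiv ℝ g x - A x‖ ^ q)
        ≤ d * (1 + C3) ^ 2 * ‖fderiv ℝ g x - A x‖ ^ q := by
      rw [mul_assoc]
      refine mul_le_mul_of_nonneg_left ?_ hd0.le
      exact mul_le_mul_of_nonneg_right (s5_pow2 hC3 ht0.le ht2)
        (Real.rpow_nonneg (norm_nonneg _) _)
    linarith
  -- integrability
  have hG : MemLp (fun x => fderiv ℝ g x) (ENNReal.ofReal q) volume :=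
    (hg.continuous_fderiv (by simp)).memLp_of_hasCompactSupport (hgc.fderiv (𝕜 := ℝ))
  have hB : MemLp (fun x => fderiv ℝ g x - A x) (ENNReal.ofReal q) volume := hG.sub hA
  obtain ⟨iA, lA⟩ := s5_lint hq0 volume A hA
  obtain ⟨iB, lB⟩ := s5_lint hq0 volume _ hB
  obtain ⟨iG, -⟩ := s5_lint hq0 volume _ hG
  have iA' : Integrable (fun x => ‖A x‖ ^ q) (volume.restrict (cube (2 * (j + k) + 1))) :=
    iA.restrict
  have iB' : Integrable (fun x => ‖fderiv ℝ g x - A x‖ ^ q)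
      (volume.restrict (cube (2 * (j + k) + 1))) := iB.restrict
  have iG' : Integrable (fun x => ‖fderiv ℝ g x‖ ^ q)
      (volume.restrict (cube (2 * (j + k) + 1))) := iG.restrict
  have hprob : IsProbabilityMeasure (volume.restrict (cube (2 * (j + k) + 1))) := by
    rw [← map_rep]
    exact Measure.isProbabilityMeasure_map measurable_rep.aemeasurable
  obtain ⟨cv, Kv, bv⟩ := s5_bdd g hg hgc (fun X => fV (j + k) X) (continuous_fV (j + k))
  obtain ⟨cH, KH, bH⟩ := s5_bdd g hg hgc (fun X => hH j k X) (continuous_hH j k)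
  have iV : Integrable (fun x => ‖fV (j + k) (fderiv ℝ g x)‖ ^ t)
      (volume.restrict (cube (2 * (j + k) + 1))) := by
    refine Integrable.of_bound
      (cv.norm.rpow_const fun _ => Or.inr ht0.le).aestronglyMeasurable
      (Kv ^ t) (Filter.Eventually.of_forall fun x => ?_)
    rw [Real.norm_of_nonneg (by positivity)]
    exact Real.rpow_le_rpow (norm_nonneg _) (bv x) ht0.le
  have iH : Integrable (fun x => ‖hH j k (fderiv ℝ g x)‖ ^ t)
      (volume.restrict (cube (2 * (j + k) + 1))) := by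
    refine Integrable.of_bound
      (cH.norm.rpow_const fun _ => Or.inr ht0.le).aestronglyMeasurable
      (KH ^ t) (Filter.Eventually.of_forall fun x => ?_)
    rw [Real.norm_of_nonneg (by positivity)]
    exact Real.rpow_le_rpow (norm_nonneg _) (bH x) ht0.le
  obtain ⟨a, ha⟩ : ∃ a : ℝ, a = ∫ x in cube (2 * (j + k) + 1), ‖A x‖ ^ q := ⟨_, rfl⟩
  obtain ⟨b, hb⟩ : ∃ b : ℝ, b = ∫ x in cube (2 * (j + k) + 1), ‖fderiv ℝ g x - A x‖ ^ q :=
    ⟨_, rfl⟩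
  obtain ⟨w, hw⟩ : ∃ w : ℝ, w = ∫ x in cube (2 * (j + k) + 1), ‖fV (j + k) (fderiv ℝ g x)‖ ^ t :=
    ⟨_, rfl⟩
  obtain ⟨I, hI⟩ : ∃ I : ℝ, I = ∫ x in cube (2 * (j + k) + 1), ‖fderiv ℝ g x‖ ^ q := ⟨_, rfl⟩
  obtain ⟨h, hh⟩ : ∃ h : ℝ, h = ∫ x in cube (2 * (j + k) + 1), ‖hH j k (fderiv ℝ g x)‖ ^ t :=
    ⟨_, rfl⟩
  have ha0 : 0 ≤ a := by rw [ha]; exact integral_nonneg fun x => by positivity
  have hb0 : 0 ≤ b := by rw [hb]; exact integral_nonneg fun x => by positivity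
  have hw0 : 0 ≤ w := by rw [hw]; exact integral_nonneg fun x => by positivity
  have hI0 : 0 ≤ I := by rw [hI]; exact integral_nonneg fun x => by positivity
  have hh0 : 0 ≤ h := by rw [hh]; exact integral_nonneg fun x => by positivity
  rw [← hw, ← hI, ← hh] at key
  have q4 : (1 - η) ^ 2 * a ≤ c * w + d * (1 + C4) ^ 2 * b := by
    rw [ha, hw, hb, ← integral_const_mul, ← integral_const_mul, ← integral_const_mul,
      ← integral_add (iV.const_mul _) (iB'.const_mul _)]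
    exact integral_mono_ae (iA'.const_mul _) ((iV.const_mul _).add (iB'.const_mul _))
      (ae_restrict_of_ae p4)
  have q5 : I ≤ c * ((1 + η) ^ 2 * a) + d * (1 + C5) ^ 2 * b := by
    rw [ha, hI, hb, ← integral_const_mul, ← integral_const_mul, ← integral_const_mul,
      ← integral_add ((iA'.const_mul _).const_mul _) (iB'.const_mul _)]
    exact integral_mono_ae iG' (((iA'.const_mul _).const_mul _).add (iB'.const_mul _))
      (ae_restrict_of_ae p5)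
  have q3 : h ≤ c * (η * a) + d * (1 + C3) ^ 2 * b := by
    rw [ha, hh, hb, ← integral_const_mul, ← integral_const_mul, ← integral_const_mul,
      ← integral_add ((iA'.const_mul _).const_mul _) (iB'.const_mul _)]
    exact integral_mono_ae iH (((iA'.const_mul _).const_mul _).add (iB'.const_mul _))
      (ae_restrict_of_ae p3)
  have q1 : w ≤ c * (κ * I) + d * (M ^ 2 * h) := by
    have h1 : M * (κ / M * I ^ (1 / t) + h ^ (1 / t)) = κ * I ^ (1 / t) + M * h ^ (1 / t) := by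
      field_simp
    have hκM : κ / (12 * (m2 : ℝ)) = κ / M := by rw [hM]
    rw [h1] at key
    have h2 := Real.rpow_le_rpow (Real.rpow_nonneg hw0 _) key ht0.le
    have hcan : ∀ z : ℝ, 0 ≤ z → (z ^ (1 / t)) ^ t = z := by
      intro z hz
      rw [← Real.rpow_mul hz, one_div, inv_mul_cancel₀ ht0.ne', Real.rpow_one]
    rw [hcan w hw0] at h2
    have h3 := s5_conv hθ0 hθ1 (mul_nonneg hκ0 (Real.rpow_nonneg hI0 (1 / t)))
      (mul_nonneg hM0.le (Real.rpow_nonneg hh0 (1 / t))) ht1.le ht2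
    rw [← hc, ← hd, Real.mul_rpow hκ0 (Real.rpow_nonneg hI0 _), hcan I hI0,
      Real.mul_rpow hM0.le (Real.rpow_nonneg hh0 _), hcan h hh0] at h3
    have h4 : κ ^ t ≤ κ := by
      rcases eq_or_lt_of_le hκ0 with h0 | h0
      · rw [← h0, Real.zero_rpow ht0.ne']
      · calc κ ^ t ≤ κ ^ (1 : ℝ) := Real.rpow_le_rpow_of_exponent_ge h0 hκ1.le ht1.le
          _ = κ := Real.rpow_one _
    have h5 : M ^ t ≤ M ^ 2 := by
      rw [← Real.rpow_two]
      exact Real.rpow_le_rpow_of_exponent_le hM1 ht2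
    have h6 := mul_le_mul_of_nonneg_left (mul_le_mul_of_nonneg_right h4 hI0) hc0.le
    have h7 := mul_le_mul_of_nonneg_left (mul_le_mul_of_nonneg_right h5 hh0) hd0.le
    linarith
  have fin1 := s5_alg ha0 hb0 hc0.le hd0.le hκ0 hκ1 hη0.le hη1 hcr hr1 hηr (by positivity)
    q4 q5 q3 q1
  rw [← hR] at fin1
  have hIa : a = ∫ x, ‖A x‖ ^ q := by
    rw [ha]
    refine setIntegral_eq_integral_of_forall_compl_eq_zero fun x hx => ?_
    rw [hA0 x hx, norm_zero, Real.zero_rpow hq0.ne']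
  have hIb : b ≤ ∫ x, ‖fderiv ℝ g x - A x‖ ^ q := by
    rw [hb]
    exact setIntegral_le_integral iB (Filter.Eventually.of_forall fun x => by positivity)
  rw [← lA, ← lB, ← hIa]
  change _ ≤ ENNReal.ofReal R * _
  rw [← ENNReal.ofReal_mul hR0]
  exact ENNReal.ofReal_le_ofReal (fin1.trans (mul_le_mul_of_nonneg_left hIb hR0))

end Pool.Agent.Lib.QR
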