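import Pool.Agent.Lib.MP_ba1c0b_an.Z4
import Pool.Agent.Lib.MP_ba1c0b_an3.S5
import Pool.Agent.Lib.MP_ba1c0b_an3.N3

/-!
Z5 (third stage): `q(n,1) ≤ n/2 + 140`.
-/

set_option autoImplicit false

open MeasureTheory Filter Topology
open scoped ENNReal NNReal

namespace Pool.Agent.Lib.QR

/-- For odd `n` with `3 √n ≥ 140` the exponent `n/2 + 140` has the property. -/
theorem qprop_const (l : ℕ) (h : (2 * l + 1 : ℝ) / 2 + 140 ≤ (2 * l + 1 : ℝ) / 2 + 3 * √(2 * l + 1)) :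
    QProp (2 * l + 1) ((2 * l + 1 : ℝ) / 2 + 140) := by
  have hr3 : 140 / 3 ≤ √(2 * l + 1 : ℝ) := by linarith
  have hr2 : √(2 * l + 1 : ℝ) ^ 2 = 2 * l + 1 := Real.sq_sqrt (by positivity)
  have hlr : (1088 : ℝ) ≤ l := by nlinarith
  have hl : 1088 ≤ l := by exact_mod_cast hlr
  have hl1 : 1 ≤ l := by omega
  -- the constants of the second stage
  have hC : ∀ m : ℕ, 2 ≤ m → ∃ C : ℝ≥0, ∀ q : ℝ, 0 < q → q ≤ 2 * l + 1 →
      GoodQ (12 * m) l m (98 / 100) q →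
      ∀ (g : E (2 * l + 1) → E (2 * l + 1))
        (A : E (2 * l + 1) → E (2 * l + 1) →L[ℝ] E (2 * l + 1)),
        ContDiff ℝ ((⊤ : ℕ∞) : WithTop ℕ∞) g → HasCompactSupport g →
        tsupport g ⊆ cube (2 * l + 1) →
        MemLp A (ENNReal.ofReal q) volume → (∀ᵐ x, Conf (A x)) →
        (∀ x ∉ cube (2 * l + 1), A x = 0) →
        ∫⁻ x, ‖A x‖ₑ ^ q ≤ C * ∫⁻ x, ‖fderiv ℝ g x - A x‖ₑ ^ q := by
    intro m hm
    have hm' : (2 : ℝ) ≤ m := by exact_mod_cast hm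
    exact coercive_gen l m hl1 hm (12 * m) (by linarith) (fun S a => proj_dimfree l m hm S a)
      (98 / 100) (by norm_num) (by norm_num)
  choose! Cm hCm using hC
  -- the constants of the third stage
  have hD : ∀ j k m2 : ℕ, j + k = l → 1 ≤ j → 1 ≤ k → 2 ≤ m2 → ∃ C : ℝ≥0, ∀ q : ℝ, 0 < q →
      q ≤ 2 * l + 1 → GoodQ (12 * (7 : ℕ)) k 7 ((99 / 100 : ℝ) / (12 * m2)) q →
      (2 * m2 : ℝ) / (2 * m2 - 1) < q / (j + k + 1) →
      ∀ (g : E (2 * l + 1) → E (2 * l + 1))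
        (A : E (2 * l + 1) → E (2 * l + 1) →L[ℝ] E (2 * l + 1)),
        ContDiff ℝ ((⊤ : ℕ∞) : WithTop ℕ∞) g → HasCompactSupport g →
        tsupport g ⊆ cube (2 * l + 1) →
        MemLp A (ENNReal.ofReal q) volume → (∀ᵐ x, Conf (A x)) →
        (∀ x ∉ cube (2 * l + 1), A x = 0) →
        ∫⁻ x, ‖A x‖ₑ ^ q ≤ C * ∫⁻ x, ‖fderiv ℝ g x - A x‖ₑ ^ q := by
    intro j k m2 hjk hj hk hm2
    subst hjk
    obtain ⟨C, hC⟩ := coercive3 j k 7 m2 hj hk (by norm_num) hm2 (99 / 100) (by norm_num)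
      (by norm_num)
    refine ⟨C, fun q h0 h1 h2 h3 => hC q h0 ?_ h2 h3⟩
    push_cast at h1
    linarith
  choose! Dm hDm using hD
  refine qprop_of_coer (by omega) _ (by push_cast; linarith) (by push_cast; linarith)
    (∑ m ∈ Finset.range (l + 3), Cm m
      + ∑ j ∈ Finset.range (l + 1), ∑ k ∈ Finset.range (l + 1), ∑ m2 ∈ Finset.range (l + 3),
        Dm j k m2) ?_
  intro q' hq1 hq2
  push_cast at hq2
  rcases le_total ((2 * l + 1 : ℝ) / 2 + 3 * √(2 * l + 1)) q' with hc | hc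
  · obtain ⟨m, hm2, hmN, hg⟩ := good_main l (by omega) q' hc hq2
    refine coer_of_cube (by linarith) _ ?_
    intro g A hg1 hgc hgs hA hAc hA0
    refine (hCm m hm2 q' (by linarith) hq2 hg g A hg1 hgc hgs hA hAc hA0).trans ?_
    refine mul_le_mul_left ?_ _
    have h1 : Cm m ≤ ∑ m ∈ Finset.range (l + 3), Cm m :=
      Finset.single_le_sum (f := Cm) (fun i _ => zero_le) (Finset.mem_range.2 (by omega))
    exact_mod_cast h1.trans le_self_add
  · obtain ⟨j, k, m2, hjk, hj, hk, hm2, hmN, hg, ht⟩ := good3_main l q' hq1 hc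
    refine coer_of_cube (by linarith) _ ?_
    intro g A hg1 hgc hgs hA hAc hA0
    refine (hDm j k m2 hjk hj hk hm2 q' (by linarith) hq2 hg ht g A hg1 hgc hgs hA hAc hA0).trans ?_
    refine mul_le_mul_left ?_ _
    have h1 : Dm j k m2 ≤ ∑ m2 ∈ Finset.range (l + 3), Dm j k m2 :=
      Finset.single_le_sum (f := fun m2 => Dm j k m2) (fun i _ => zero_le)
        (Finset.mem_range.2 (by omega))
    have h2 : (∑ m2 ∈ Finset.range (l + 3), Dm j k m2)
        ≤ ∑ k ∈ Finset.range (l + 1), ∑ m2 ∈ Finset.range (l + 3), Dm j k m2 :=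
      Finset.single_le_sum (f := fun k => ∑ m2 ∈ Finset.range (l + 3), Dm j k m2)
        (fun i _ => zero_le) (Finset.mem_range.2 (by omega))
    have h3 : (∑ k ∈ Finset.range (l + 1), ∑ m2 ∈ Finset.range (l + 3), Dm j k m2)
        ≤ ∑ j ∈ Finset.range (l + 1), ∑ k ∈ Finset.range (l + 1), ∑ m2 ∈ Finset.range (l + 3),
          Dm j k m2 :=
      Finset.single_le_sum (f := fun j => ∑ k ∈ Finset.range (l + 1),
        ∑ m2 ∈ Finset.range (l + 3), Dm j k m2)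
        (fun i _ => zero_le) (Finset.mem_range.2 (by omega))
    exact_mod_cast ((h1.trans h2).trans h3).trans le_add_self

/-- `q(n,1) ≤ n/2 + min (3 √n) 140` for all odd `n ≥ 3`. -/
theorem rate_const (n : ℕ) (hodd : Odd n) (hn : 3 ≤ n) :
    qexp n ≤ n / 2 + min (3 * √n) 140 := by
  by_cases h : 140 ≤ 3 * √(n : ℝ)
  · rw [min_eq_right h]
    obtain ⟨l, rfl⟩ := hodd
    have hc : (((2 * l + 1 : ℕ) : ℝ)) = 2 * l + 1 := by push_cast; rfl
    rw [hc] at h ⊢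
    exact csInf_le ⟨1, fun _ hq => hq.1.le⟩ (qprop_const l (by linarith))
  · rw [min_eq_left (not_le.1 h).le]
    exact rate_sqrt n hodd hn

end Pool.Agent.Lib.QR
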